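import Mathlib
import Pool.Agent.Y126.Toric.Glob

/-!
# Lie algebras of operators attached to a representation

The properties of the Lie algebra of the algebraic monodromy group that are used for the
construction of square-zero operators of rank one.
-/

set_option linter.unusedSectionVars false

namespace Pool.Agent.Y144.QF

open Module Pool.Agent.H204R3.SP Pool.Agent.H204R3.GP Pool.Agent.W522.U Pool.Agent.W529.Ta
open Pool.Agent.W528.Odd Pool.Agent.Y126.OT Pool.Agent.TH118.CR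
open Pool.Agent.W528.Tor (AltDual)

noncomputable section

variable {K : Type} [Field K] [CharZero K] {X : Type} [AddCommGroup X] [Module K X]
  [FiniteDimensional K X] {Γ : Type} [Group Γ] {R : Representation K Γ X} {χ : Γ →* K}

/-- The operator commutes with a subgroup of finite index. -/
def Comm (R : Representation K Γ X) (P : Module.End K X) : Prop :=
  ∃ Δ : Subgroup Γ, Δ.FiniteIndex ∧ ∀ g ∈ Δ, P * R g = R g * P

/-- The properties of the Lie algebra. -/
structure IsLie (ω : X →ₗ[K] X →ₗ[K] K) (R : Representation K Γ X)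
    (L : Submodule K (Module.End K X)) : Prop where
  br : ∀ x ∈ L, ∀ y ∈ L, x * y - y * x ∈ L
  conj : ∀ s, ∀ x ∈ L, R s * x * R s⁻¹ ∈ L
  comm : ∀ x ∈ L, ∀ P, Comm R P → x * P = P * x
  skew : ∀ x ∈ L, ∀ u v, ω (x u) v + ω u (x v) = 0
  unip : ∀ γ, (R γ - 1) * (R γ - 1) = 0 → R γ - 1 ∈ L

/-- The subspaces that are stable under all elements of square `1 / 4` are potentially stable. -/
def HodgeGen (R : Representation K Γ X) (L : Submodule K (Module.End K X)) : Prop :=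
  ∀ W : Submodule K X, (∀ x ∈ L, x * x = (1 / 4 : K) • 1 → ∀ u ∈ W, x u ∈ W) → Pot R W

variable {ω : X →ₗ[K] X →ₗ[K] K} {L : Submodule K (Module.End K X)}

theorem IsLie.comm' (hL : IsLie ω R L) {Δ : Subgroup Γ} (hΔ : Δ.FiniteIndex)
    {p : X →ₗ[K] X} (hp : ∀ g ∈ Δ, ∀ v, p (R g v) = R g (p v)) {x : Module.End K X}
    (hx : x ∈ L) (v : X) : x (p v) = p (x v) :=
  LinearMap.congr_fun (hL.comm x hx p ⟨Δ, hΔ, fun g hg => LinearMap.ext fun v => hp g hg v⟩) v

/-- Elements of the Lie algebra preserve the potentially stable subspaces. -/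
theorem IsLie.stable (hL : IsLie ω R L) (hss : HasProj R) {U : Submodule K X}
    (hU : Pot R U) {N : Module.End K X} (hN : N ∈ L) : ∀ u ∈ U, N u ∈ U := by
  obtain ⟨Δ, hΔ, hst⟩ := hU
  obtain ⟨p, hp1, hp2, hp3⟩ := hss Δ hΔ U hst
  intro u hu
  have h1 := hL.comm' hΔ hp3 hN u
  rw [hp2 u hu] at h1
  rw [h1]
  exact hp1 _

/-- Elements of the Lie algebra are skew for the pairings of a potentially stable subspace. -/
theorem IsLie.skewB (hL : IsLie ω R L) (hnd : ∀ u, (∀ v, ω u v = 0) → u = 0)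
    (hωR : ∀ g u v, ω (R g u) (R g v) = χ g * ω u v) (hss : HasProj R) {U : Submodule K X}
    (hU : Pot R U) {Δ : Subgroup Γ} (hΔ : Δ.FiniteIndex) (B : X →ₗ[K] X →ₗ[K] K)
    (hB : ∀ g ∈ Δ, ∀ u ∈ U, ∀ v ∈ U, B (R g u) (R g v) = χ g * B u v)
    {N : Module.End K X} (hN : N ∈ L) :
    ∀ u ∈ U, ∀ v ∈ U, B (N u) v + B u (N v) = 0 := by
  have hNU := hL.stable hss hU hN
  obtain ⟨Δ0, hΔ0, hU0⟩ := id hU
  obtain ⟨q, hq1, hq2, hq3⟩ := hss Δ0 hΔ0 U hU0
  have hinj : Function.Injective ω := by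
    rw [injective_iff_map_eq_zero]
    intro u hu
    exact hnd u fun v => by rw [hu, LinearMap.zero_apply]
  have hbij : Function.Bijective ω := by
    refine ⟨hinj, (LinearMap.injective_iff_surjective_of_finrank_eq_finrank ?_).1 hinj⟩
    exact (Subspace.dual_finrank_eq (K := K) (V := X)).symm
  let e : X ≃ₗ[K] Dual K X := LinearEquiv.ofBijective ω hbij
  let P : Module.End K X := e.symm.toLinearMap.comp (B.compl₁₂ q q)
  have hP : ∀ u v, ω (P u) v = B (q u) (q v) := by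
    intro u v
    have h1 : e (P u) = B.compl₁₂ q q u := e.apply_symm_apply _
    exact congrArg (fun f : Dual K X => f v) h1
  have hPc : Comm R P := by
    refine ⟨Δ ⊓ Δ0, inferInstance, fun g hg => ?_⟩
    refine LinearMap.ext fun u => ?_
    change P (R g u) = R g (P u)
    rw [← sub_eq_zero]
    apply hnd
    intro v
    have h3 : R g (R g⁻¹ v) = v := by
      rw [← Module.End.mul_apply, ← map_mul, mul_inv_cancel, map_one]
      rfl
    rw [map_sub, LinearMap.sub_apply, ← h3, hP, hωR, hP, hq3 g hg.2, hq3 g hg.2,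
      hB g hg.1 _ (hq1 _) _ (hq1 _), sub_self]
  intro u hu v hv
  have h1 := hL.skew N hN (P u) v
  have h2 : N (P u) = P (N u) := LinearMap.congr_fun (hL.comm N hN P hPc) u
  rw [h2, hP, hP, hq2 u hu, hq2 v hv, hq2 _ (hNU u hu), hq2 _ (hNU v hv)] at h1
  exact h1

/-- The restrictions to `U` of the elements of the Lie algebra. -/
def resL (L : Submodule K (Module.End K X)) (U : Submodule K X) :
    Submodule K (Module.End K U) where
  carrier := {Y | ∃ x ∈ L, ∀ u : U, ((Y u : U) : X) = x u}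
  zero_mem' := ⟨0, L.zero_mem, fun u => rfl⟩
  add_mem' := by
    rintro Y Y' ⟨x, hx, hY⟩ ⟨x', hx', hY'⟩
    refine ⟨x + x', L.add_mem hx hx', fun u => ?_⟩
    rw [LinearMap.add_apply, LinearMap.add_apply, ← hY, ← hY']
    rfl
  smul_mem' := by
    rintro c Y ⟨x, hx, hY⟩
    refine ⟨c • x, L.smul_mem _ hx, fun u => ?_⟩
    rw [LinearMap.smul_apply, LinearMap.smul_apply, ← hY]
    rfl

theorem IsLie.resL_br (hL : IsLie ω R L) {U : Submodule K X} : ∀ Y ∈ resL L U, ∀ Y' ∈ resL L U,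
    Y * Y' - Y' * Y ∈ resL L U := by
  rintro Y ⟨x, hx, hY⟩ Y' ⟨x', hx', hY'⟩
  refine ⟨x * x' - x' * x, hL.br _ hx _ hx', fun u => ?_⟩
  rw [LinearMap.sub_apply, LinearMap.sub_apply, Submodule.coe_sub, Module.End.mul_apply,
    Module.End.mul_apply, Module.End.mul_apply, Module.End.mul_apply, hY, hY', hY', hY]

theorem IsLie.resL_conj (hL : IsLie ω R L) {U : Submodule K X} (Δ : Subgroup Γ)
    (hUΔ : ∀ g ∈ Δ, ∀ u ∈ U, R g u ∈ U) :
    ∀ g : Δ, ∀ Y ∈ resL L U, resR R Δ U hUΔ g * Y * resR R Δ U hUΔ g⁻¹ ∈ resL L U := by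
  rintro g Y ⟨x, hx, hY⟩
  refine ⟨R g.1 * x * R g.1⁻¹, hL.conj g.1 _ hx, fun u => ?_⟩
  change R g.1 ((Y (resR R Δ U hUΔ g⁻¹ u) : U) : X) = R g.1 (x (R g.1⁻¹ u))
  rw [hY]
  rfl

/-- Elements of square `1 / 4` act irreducibly. -/
theorem IsLie.irr' (hL : IsLie ω R L) (hss : HasProj R) (hP : HodgeGen R L) {U : Submodule K X}
    (hU : SI R U) (W : Submodule K U)
    (hW : ∀ Y : Module.End K U, (∃ x₀ ∈ L, x₀ * x₀ = (1 / 4 : K) • 1 ∧
      ∀ u : U, ((Y u : U) : X) = x₀ u) → ∀ u ∈ W, Y u ∈ W) : W = ⊥ ∨ W = ⊤ := by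
  have hpot : Pot R (W.map U.subtype) := by
    refine hP _ fun x hx hxx => ?_
    rintro _ ⟨w, hw, rfl⟩
    have hst := hL.stable hss hU.2.1 hx
    have h1 := hW (x.restrict hst) ⟨x, hx, hxx, fun u => rfl⟩ w hw
    exact ⟨_, h1, rfl⟩
  rcases hU.2.2 _ (Submodule.map_subtype_le _ _) hpot with h2 | h2
  · left
    rw [eq_bot_iff]
    intro u hu
    have h3 : (u : X) ∈ W.map U.subtype := ⟨u, hu, rfl⟩
    rw [h2, Submodule.mem_bot] at h3
    rw [Submodule.mem_bot]
    exact Subtype.ext h3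
  · right
    rw [eq_top_iff]
    intro u _
    have h3 : (u : X) ∈ W.map U.subtype := by
      rw [h2]
      exact u.2
    obtain ⟨u', hu', huu⟩ := h3
    have h4 : u' = u := Subtype.ext huu
    rw [← h4]
    exact hu'

/-- Elements of square `1 / 4` act irreducibly. -/
theorem IsLie.irr (hL : IsLie ω R L) (hss : HasProj R) (hP : HodgeGen R L) {U : Submodule K X}
    (hU : SI R U) (W : Submodule K U)
    (hW : ∀ Y ∈ resL L U, Y * Y = (1 / 4 : K) • 1 → ∀ u ∈ W, Y u ∈ W) : W = ⊥ ∨ W = ⊤ :=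
  hL.irr' hss hP hU W fun Y ⟨x, hx, hxx, hY⟩ => hW Y ⟨x, hx, hY⟩ (sq_res hY _ hxx)

end

end Pool.Agent.Y144.QF
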