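import Mathlib
import Pool.Agent.W528.ZC.Main3
import Pool.Agent.Y144.QF.Abs

/-!
# The identity component of the Zariski closure contains the symplectic groups, if the Lie algebra
contains square-zero operators of rank one
-/

set_option linter.unusedSectionVars false
set_option linter.deprecated false

namespace Pool.Agent.Y144.QF

open Module MvPolynomial Pool.Agent.H204R3.SP Pool.Agent.H204R3.GP Pool.Agent.W522.U
open Pool.Agent.W528.Tor (AltDual)
open Pool.Agent.W529.Ta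
open Pool.Agent.W528.Odd (rk rk_res sq_res exists_rank_one_odd all_of_rank_one sIrr_res
  nil_of_all rk_eq_zero)
open Pool.Agent.W528.ZC

noncomputable section

variable {K : Type} [Field K] [CharZero K] {ι : Type} [Fintype ι] [DecidableEq ι]
  {Γ : Type} [Group Γ] {R : Representation K Γ (ι → K)}
  {ω : (ι → K) →ₗ[K] (ι → K) →ₗ[K] K} {χ : Γ →* K}

/-- Every strongly irreducible subspace is self-dual with an alternating pairing, and the Lie
algebra contains a square-zero operator of rank one on it. -/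
def HasOne (ω : (ι → K) →ₗ[K] (ι → K) →ₗ[K] K) (R : Representation K Γ (ι → K)) (χ : Γ →* K) :
    Prop :=
  ∀ U, SI R U → AltDual R χ U ∧ ∃ e ∈ HZ ω R, e * e = 0 ∧ finrank K (U.map e) = 1

/-- Operators of rank one. -/
theorem exists_smulRight {V : Type} [AddCommGroup V] [Module K V]
    (N : Module.End K V) (h : finrank K (LinearMap.range N) = 1) :
    ∃ (u : V) (φ : Dual K V), u ≠ 0 ∧ φ ≠ 0 ∧ N = φ.smulRight u := by
  obtain ⟨⟨u, hu⟩, hu0, hspan⟩ := finrank_eq_one_iff'.1 h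
  choose c hc using fun v : V => hspan ⟨N v, LinearMap.mem_range_self _ v⟩
  have hu0' : u ≠ 0 := fun h => hu0 (Subtype.ext h)
  have hc' : ∀ v, c v • u = N v := fun v => congrArg Subtype.val (hc v)
  let φ : Dual K V :=
    { toFun := c
      map_add' := by
        intro x y
        have h3 : (c (x + y) - (c x + c y)) • u = 0 := by
          rw [sub_smul, add_smul, hc', hc', hc', map_add, sub_self]
        exact sub_eq_zero.1 ((smul_eq_zero.1 h3).resolve_right hu0')
      map_smul' := by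
        intro a x
        have h3 : (c (a • x) - a * c x) • u = 0 := by
          rw [sub_smul, mul_smul, hc', hc', map_smul, sub_self]
        exact sub_eq_zero.1 ((smul_eq_zero.1 h3).resolve_right hu0') }
  have hφ : N = φ.smulRight u := LinearMap.ext fun v => (hc' v).symm
  refine ⟨u, φ, hu0', ?_, hφ⟩
  intro h
  rw [h] at hφ
  obtain ⟨v, hv⟩ := hu
  apply hu0'
  rw [← hv, hφ]
  simp

section fam

variable (hss : HasProj R) (hnd : ∀ u, (∀ v, ω u v = 0) → u = 0)
  (hω : ∀ s u v, ω (R s u) (R s v) = χ s * ω u v)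
  (hos : HasOne ω R χ)
  {s : ℕ} (W : Fin s → Submodule K (ι → K)) (hW : ∀ i, SI R (W i))
  (hWW : ∀ i j, Tw R (fun _ => 1) (W i) (W j) → i = j)
  (P : Fin s → Module.End K (ι → K)) (hP : ∀ i, CR R (P i))
  (hPa : ∀ i, ∀ u ∈ W i, ω (P i u) u = 0)
  (hPn : ∀ i, ∀ u ∈ W i, (∀ v ∈ W i, ω (P i u) v = 0) → u = 0)
  (Δ : Subgroup Γ) (hΔ : Δ.FiniteIndex)
  (hWΔ : ∀ i, ∀ g ∈ Δ, ∀ u ∈ W i, R g u ∈ W i)
  (hPΔ : ∀ i, ∀ g ∈ Δ, P i * R g = R g * P i)

include hos hss hW in
theorem nil_HW (i : Fin s) : ∃ N ∈ HW ω R W, (∀ j, N j * N j = 0) ∧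
    ∃ (u : W i) (φ : Dual K (W i)), u ≠ 0 ∧ φ ≠ 0 ∧ N i = φ.smulRight u := by
  obtain ⟨-, e, he, he2, hr⟩ := hos (W i) (hW i)
  obtain ⟨N, hN, hNx⟩ := fam_of hss W hW he
  have hNN : ∀ j, N j * N j = 0 := by
    intro j
    have h3 := sq_res (hNx j) 0 (by rw [he2, zero_smul])
    rwa [zero_smul] at h3
  refine ⟨N, hN, hNN, ?_⟩
  have h1 : finrank K (LinearMap.range (N i)) = 1 := by
    have h2 := rk_res (hNx i)
    unfold rk at h2
    rw [h2, hr]
  exact exists_smulRight (N i) h1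

include hnd hω hos hss hW hP hPa hPn hΔ hPΔ in
theorem types_HW [IsAlgClosed K] : Types (fun i => resR R Δ (W i) (hWΔ i)) (HW ω R W)
    (fun _ => True) (fun _ => True) (fun i => Bf ω (P i) (W i)) (χ.comp Δ.subtype) where
  irr := fun i _ => sIrr_res (hW i) Δ hΔ (hWΔ i)
  alt := fun i _ u => hPa i _ u.2
  inj := by
    intro i _
    rw [injective_iff_map_eq_zero]
    intro u hu
    refine Subtype.ext (hPn i u u.2 fun v hv => ?_)
    have h1 := congrArg (fun f : Dual K (W i) => f ⟨v, hv⟩) hu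
    exact h1
  sim := by
    intro i _ g u v
    rw [Bf_apply, Bf_apply, resR_apply, resR_apply]
    have h1 := congrArg (fun f : Module.End K (ι → K) => f (u : ι → K)) (hPΔ i g.1 g.2)
    change P i (R g.1 u) = R g.1 (P i u) at h1
    rw [h1, hω]
    rfl
  sp := fun i _ X hX u v => HW_sp W P hP i hX u v
  nf := fun i _ h => absurd trivial h
  nil := by
    intro i _
    obtain ⟨N, hN, hNN, u, φ, hu, hφ, hNi⟩ := nil_HW hss hos W hW i
    refine ⟨N, hN, hNN, u, φ, hu, hφ, ?_, hNi⟩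
    have h3 := hNN i
    rw [hNi] at h3
    obtain ⟨v, hv⟩ : ∃ v, φ v ≠ 0 := by
      by_contra h4
      push Not at h4
      exact hφ (LinearMap.ext h4)
    have h4 := congrArg (fun f : Module.End K (W i) => f v) h3
    simp only [Module.End.mul_apply, LinearMap.smulRight_apply, map_smul,
      LinearMap.zero_apply] at h4
    rcases smul_eq_zero.1 h4 with h5 | h5
    · exact absurd h5 hv
    · exact (smul_eq_zero.1 h5).resolve_right hu

include hnd hω hos hss hW hWW hP hPa hPn hΔ hWΔ hPΔ in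
theorem exists_single [IsAlgClosed K] (i : Fin s) (u : W i) :
    ∃ y ∈ HZ ω R, (∀ x : W i, y x = ω (P i u) x • (u : ι → K)) ∧
      ∀ j, j ≠ i → ∀ x ∈ W j, y x = 0 := by
  classical
  have hT := types_HW hss hnd hω hos W hW P hP hPa hPn Δ hΔ hWΔ hPΔ
  have h𝔥 := lieFam_HW W Δ hWΔ hBR hCJ hω
  obtain ⟨X, ⟨y, hy, hyX⟩, hXi, hXj⟩ := full_indep h𝔥 hT (i := i) trivial (Finset.univ.erase i) (by
    intro j hj
    rw [Finset.mem_erase] at hj
    exact independent h𝔥 hT trivial trivial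
      (notwist hω W hW hWW P hPn Δ hΔ hWΔ hPΔ i j (Ne.symm hj.1))
      (notwist hω W hW hWW P hPn Δ hΔ hWΔ hPΔ j i hj.1)) u (Bf ω (P i) (W i) u)
    ⟨hT.alt i trivial u, fun _ => ⟨1, (one_smul _ _).symm⟩⟩
  refine ⟨y, hy, fun x => ?_, fun j hj x hx => ?_⟩
  · rw [← hyX, hXi]
    rfl
  · have h1 := hyX j ⟨x, hx⟩
    rw [hXj j (Finset.mem_erase.2 ⟨hj, Finset.mem_univ _⟩)] at h1
    exact h1.symm

end fam

section fam2

variable (hss : HasProj R) (hnd : ∀ u, (∀ v, ω u v = 0) → u = 0)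
  (hω : ∀ s u v, ω (R s u) (R s v) = χ s * ω u v)
  (hos : HasOne ω R χ)
  {s : ℕ} (W : Fin s → Submodule K (ι → K)) (hW : ∀ i, SI R (W i))
  (hWW : ∀ i j, Tw R (fun _ => 1) (W i) (W j) → i = j)
  (hall : ∀ U, SI R U → ∃ i, Tw R (fun _ => 1) U (W i))
  (P : Fin s → Module.End K (ι → K)) (hP : ∀ i, CR R (P i))
  (hPa : ∀ i, ∀ u ∈ W i, ω (P i u) u = 0)
  (hPn : ∀ i, ∀ u ∈ W i, (∀ v ∈ W i, ω (P i u) v = 0) → u = 0)
  (Δ : Subgroup Γ) (hΔ : Δ.FiniteIndex)
  (hWΔ : ∀ i, ∀ g ∈ Δ, ∀ u ∈ W i, R g u ∈ W i)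
  (hPΔ : ∀ i, ∀ g ∈ Δ, P i * R g = R g * P i)

include hnd hω hos hss hW hWW hall hP hPa hPn hΔ hWΔ hPΔ in
theorem exists_tau [IsAlgClosed K] (i : Fin s) (u : W i) :
    ∃ n ∈ Lg R, n * n = 0 ∧ (∀ x : W i, n x = ω (P i u) x • (u : ι → K)) ∧
      ∀ j, j ≠ i → ∀ x ∈ W j, n x = 0 := by
  have hB : ∀ a b : W i, ω (P i a) b = -ω (P i b) a := by
    intro a b
    have h1 := hPa i _ (a + b).2
    rw [Submodule.coe_add] at h1
    simp only [map_add, LinearMap.add_apply] at h1
    rw [hPa i _ a.2, hPa i _ b.2] at h1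
    linear_combination h1
  have key : ∃ n ∈ Lg R, (∀ x : W i, n x = ω (P i u) x • (u : ι → K)) ∧
      ∀ j, j ≠ i → ∀ x ∈ W j, n x = 0 := by
    by_cases hu : u = 0
    · refine ⟨0, Submodule.zero_mem _, fun x => ?_, fun j _ x _ => rfl⟩
      rw [hu, Submodule.coe_zero, smul_zero, LinearMap.zero_apply]
    obtain ⟨w, hw⟩ : ∃ w : W i, ω (P i u) w ≠ 0 := by
      by_contra hcon
      push Not at hcon
      exact hu (Subtype.ext (hPn i u u.2 fun v hv => hcon ⟨v, hv⟩))
    obtain ⟨y1, hy1, h1, h1'⟩ := exists_single hss hnd hω hos W hW hWW P hP hPa hPn Δ hΔ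
      hWΔ hPΔ i w
    obtain ⟨y2, hy2, h2, h2'⟩ := exists_single hss hnd hω hos W hW hWW P hP hPa hPn Δ hΔ
      hWΔ hPΔ i u
    have hx := HZ_br hBR hy1 hy2
    have hn := HZ_br_Lg hBR hx hy2
    set b := ω (P i u) w with hb
    have hb2 : (2 * b ^ 2) ≠ 0 := mul_ne_zero two_ne_zero (pow_ne_zero 2 hw)
    have hwu : ω (P i w) u = -b := by rw [hB]
    have huu : ω (P i u) u = 0 := hPa i _ u.2
    refine ⟨(2 * b ^ 2)⁻¹ • _, Submodule.smul_mem _ _ hn, fun x => ?_, fun j hj x hx => ?_⟩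
    · have e1 : ∀ z : W i, (y1 * y2 - y2 * y1) (z : ι → K) =
          -(b * ω (P i u) z) • (w : ι → K) - (b * ω (P i w) z) • (u : ι → K) := by
        intro z
        rw [LinearMap.sub_apply, Module.End.mul_apply, Module.End.mul_apply, h2, h1, map_smul,
          map_smul, h1, h2, hwu, ← hb, smul_smul, smul_smul]
        module
      rw [LinearMap.smul_apply, LinearMap.sub_apply, Module.End.mul_apply, Module.End.mul_apply,
        h2, map_smul, e1, e1, map_sub, map_smul, map_smul, h2, h2, hwu, huu, ← hb]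
      rw [show (2 * b ^ 2)⁻¹ • (ω (P i u) x • (-(b * 0) • (w : ι → K) - (b * -b) • (u : ι → K)) -
        (-(b * ω (P i u) x) • b • (u : ι → K) - (b * ω (P i w) x) • (0 : K) • (u : ι → K))) =
        ((2 * b ^ 2)⁻¹ * (2 * b ^ 2)) • (ω (P i u) x • (u : ι → K)) by module,
        inv_mul_cancel₀ hb2, one_smul]
    · have e1 : (y1 * y2 - y2 * y1) x = 0 := by
        rw [LinearMap.sub_apply, Module.End.mul_apply, Module.End.mul_apply, h2' j hj x hx,
          h1' j hj x hx, map_zero, map_zero, sub_zero]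
      rw [LinearMap.smul_apply, LinearMap.sub_apply, Module.End.mul_apply, Module.End.mul_apply,
        h2' j hj x hx, e1, map_zero, map_zero, sub_zero, smul_zero]
  obtain ⟨n, hn, h1, h2⟩ := key
  refine ⟨n, hn, ?_, h1, h2⟩
  refine ext_reps hss W hW hall (fun Q hQ => ?_) fun j x hx => ?_
  · have h3 := Lg_comm hn hQ
    rw [mul_assoc, h3, ← mul_assoc, h3, mul_assoc]
  · by_cases hj : j = i
    · subst hj
      rw [Module.End.mul_apply, h1 ⟨x, hx⟩, map_smul, h1, hPa j _ u.2, zero_smul, smul_zero]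
    · rw [Module.End.mul_apply, h2 j hj x hx, map_zero]

include hnd hω hos hss hW hWW hall hP hPa hPn hΔ hWΔ hPΔ in
theorem exists_lift [IsAlgClosed K] (i : Fin s) (t : Module.End K (W i))
    (ht : ∀ u v, Bf ω (P i) (W i) (t u) (t v) = Bf ω (P i) (W i) u v) :
    ∃ T, InZ R T ∧ (∀ x : W i, T x = t x) ∧ ∀ j, j ≠ i → ∀ x ∈ W j, T x = x := by
  have h1 := hTR K (W i) (Bf ω (P i) (W i)) (fun v => hPa i _ v.2)
    (fun u hu => Subtype.ext (hPn i u u.2 fun v hv => hu ⟨v, hv⟩)) t ht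
  clear ht
  induction h1 using Submonoid.closure_induction with
  | mem t ht =>
    obtain ⟨c, u, rfl⟩ := ht
    obtain ⟨n, hn, hnn, h2, h3⟩ := exists_tau hss hnd hω hos W hW hWW hall P hP hPa hPn Δ hΔ
      hWΔ hPΔ i u
    refine ⟨1 + c • n, InZ_unip hUN hn hnn c, fun x => ?_, fun j hj x hx => ?_⟩
    · rw [LinearMap.add_apply, LinearMap.smul_apply, h2]
      rfl
    · rw [LinearMap.add_apply, LinearMap.smul_apply, h3 j hj x hx, smul_zero, add_zero]
      rfl
  | one => exact ⟨1, InZ_one, fun x => rfl, fun j _ x _ => rfl⟩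
  | mul a b _ _ ha hb =>
    obtain ⟨T, hT, h2, h3⟩ := ha
    obtain ⟨T', hT', h2', h3'⟩ := hb
    refine ⟨T * T', InZ_mul hT hT', fun x => ?_, fun j hj x hx => ?_⟩
    · rw [Module.End.mul_apply, h2', h2]
      rfl
    · rw [Module.End.mul_apply, h3' j hj x hx, h3 j hj x hx]

end fam2

/-- The main theorem: the identity component of the Zariski closure contains all similitudes that
commute with everything that commutes with a subgroup of finite index. -/
theorem main_Z [IsAlgClosed K] (hss : HasProj R) (hnd : ∀ u, (∀ v, ω u v = 0) → u = 0)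
    (hω : ∀ s u v, ω (R s u) (R s v) = χ s * ω u v)
    (hos : HasOne ω R χ) (hodge : ∃ p, WHodge ω R p) (g : Module.End K (ι → K))
    (hg : ∀ P, CR R P → g * P = P * g) {c : K} (hc : c ≠ 0)
    (hgω : ∀ u v, ω (g u) (g v) = c * ω u v) : InZ R g := by
  obtain ⟨s, W, hW, hWW, hall⟩ := exists_reps hss
  choose P hP hPa hPn using fun i => exists_P hss hnd hω (hW i) (hos (W i) (hW i)).1
  choose D hD hDW using fun i => (hW i).2.1
  choose D' hD' hDP using hP
  let Δ : Subgroup Γ := ⨅ i, D i ⊓ D' i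
  have hΔ : Δ.FiniteIndex := Subgroup.finiteIndex_iInf (fun i => inferInstance)
  have hm : ∀ g ∈ Δ, ∀ i, g ∈ D i ∧ g ∈ D' i := fun g hg i => Subgroup.mem_iInf.1 hg i
  have hP : ∀ i, CR R (P i) := fun i => ⟨D' i, hD' i, hDP i⟩
  obtain ⟨p, hp⟩ := hodge
  have hpC : ∀ Q, CR R Q → p * Q = Q * p := by
    intro Q hQ
    have h1 := HZ_comm (HZ_hodge hID hp).1 hQ
    rw [sub_mul, mul_sub, smul_mul_assoc, mul_smul_comm, one_mul, mul_one] at h1
    exact sub_left_injective h1
  obtain ⟨hpp, hpω, hpZ⟩ := hp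
  have h00 : ∀ u v, p u = 0 → p v = 0 → ω u v = 0 := by
    intro u v hu hv
    have h1 := hpω u v
    rw [hu, hv, map_zero, map_zero, LinearMap.zero_apply, add_zero] at h1
    exact h1.symm
  have h11 : ∀ u v, p u = u → p v = v → ω u v = 0 := by
    intro u v hu hv
    have h1 := hpω u v
    rw [hu, hv] at h1
    linear_combination h1
  have hpp' : ∀ x, p (p x) = p x := fun x => by
    rw [← Module.End.mul_apply, hpp]
  have hmul : ∀ (a : K) (u v : ι → K), ω ((1 - p + a • p) u) ((1 - p + a • p) v) =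
      a * ω u v := by
    intro a u v
    have e1 : ∀ x, (1 - p + a • p) x = (x - p x) + a • p x := fun x => rfl
    have e2 : ∀ x, p (x - p x) = 0 := fun x => by rw [map_sub, hpp', sub_self]
    rw [e1, e1, map_add, map_add, LinearMap.add_apply, LinearMap.add_apply, map_smul, map_smul,
      map_smul, LinearMap.smul_apply, LinearMap.smul_apply, h00 _ _ (e2 u) (e2 v),
      h11 (p u) (p v) (hpp' u) (hpp' v)]
    have h3 := h00 _ _ (e2 u) (e2 v)
    have h4 := h11 (p u) (p v) (hpp' u) (hpp' v)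
    have h5 : ω (u - p u) (p v) = ω u (p v) := by
      rw [map_sub, LinearMap.sub_apply, h4, sub_zero]
    have h6 : ω (p u) (v - p v) = ω (p u) v := by
      rw [map_sub, h4, sub_zero]
    rw [h5, h6, smul_eq_mul, smul_eq_mul, smul_eq_mul, smul_eq_mul, ← hpω u v]
    ring
  let m : Module.End K (ι → K) := 1 - p + c • p
  let m' : Module.End K (ι → K) := 1 - p + c⁻¹ • p
  have hmm' : m * m' = 1 := by
    change (1 - p + c • p) * (1 - p + c⁻¹ • p) = 1
    have h1 : (1 - p + c • p) * (1 - p + c⁻¹ • p) = 1 - p - (p - p * p) + c⁻¹ • (p - p * p) +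
        c • (p - p * p) + (c * c⁻¹) • (p * p) := by
      simp only [add_mul, mul_add, sub_mul, mul_sub, one_mul, mul_one, smul_mul_assoc,
        mul_smul_comm]
      module
    rw [h1, hpp, sub_self, smul_zero, smul_zero, sub_zero, add_zero, add_zero, mul_inv_cancel₀ hc,
      one_smul, sub_add_cancel]
  let g' : Module.End K (ι → K) := m' * g
  have hg' : ∀ Q, CR R Q → g' * Q = Q * g' := by
    intro Q hQ
    have h1 : m' * Q = Q * m' := by
      change (1 - p + c⁻¹ • p) * Q = Q * (1 - p + c⁻¹ • p)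
      rw [add_mul, mul_add, sub_mul, mul_sub, one_mul, mul_one, smul_mul_assoc, mul_smul_comm,
        hpC Q hQ]
    change m' * g * Q = Q * (m' * g)
    rw [mul_assoc, hg Q hQ, ← mul_assoc, h1, mul_assoc]
  have hg'ω : ∀ u v, ω (g' u) (g' v) = ω u v := by
    intro u v
    change ω ((1 - p + c⁻¹ • p) (g u)) ((1 - p + c⁻¹ • p) (g v)) = ω u v
    rw [hmul, hgω, ← mul_assoc, inv_mul_cancel₀ hc, one_mul]
  have hst : ∀ i, ∀ x ∈ W i, g' x ∈ W i := fun i => stable_of_comm hss (hW i).2.1 hg'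
  obtain ⟨T, hT, hTg, -⟩ := exists_lift' W g' (fun i => by
    obtain ⟨T, h1, h2, h3⟩ := exists_lift hss hnd hω hos W hW hWW hall P hP hPa hPn Δ hΔ
      (fun i g hg u hu => hDW i g (hm g hg i).1 u hu) (fun i g hg => hDP i g (hm g hg i).2) i
      (g'.restrict (hst i)) (by
        intro u v
        rw [Bf_apply, Bf_apply]
        change ω (P i (g' u)) (g' v) = _
        have h4 := congrArg (fun f : Module.End K (ι → K) => f (u : ι → K)) (hg' _ (hP i))
        change g' (P i u) = P i (g' u) at h4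
        rw [← h4, hg'ω])
    exact ⟨T, h1, fun x hx => h2 ⟨x, hx⟩, h3⟩) hst Finset.univ
  have hTg' : T = g' := by
    rw [← sub_eq_zero]
    refine ext_reps hss W hW hall (fun Q hQ => ?_) fun i x hx => ?_
    · rw [sub_mul, mul_sub, hg' Q hQ, InZ_comm hT hQ]
    · rw [LinearMap.sub_apply, hTg i (Finset.mem_univ i) x hx, sub_self]
  have h1 : g = m * T := by
    rw [hTg']
    change g = m * (m' * g)
    rw [← mul_assoc, hmm', one_mul]
  rw [h1]
  exact InZ_mul (hpZ c hc) hT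

end

end Pool.Agent.Y144.QF
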