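import Mathlib
import Pool.Agent.W528.ZC.Lin
import Pool.Agent.W528.ZC.Lie

/-!
# Slope operators of diagonalizable elements are in the Lie algebra of the Zariski closure
-/

set_option linter.unusedSectionVars false

namespace Pool.Agent.Y144.QF

open Module MvPolynomial Pool.Agent.W528.ZC TrivSqZeroExt

noncomputable section

section groupring

variable {K : Type} [Field K] [CharZero K]

/-- Evaluation of the characters at the `k`-th power. -/
def evk (K : Type) [Field K] (k : ℕ) : MonoidAlgebra K Kˣ →ₐ[K] K :=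
  MonoidAlgebra.lift K K Kˣ ((Units.coeHom K).comp (powMonoidHom k))

theorem evk_single (k : ℕ) (u : Kˣ) (c : K) :
    evk K k (MonoidAlgebra.single u c) = c * (u : K) ^ k := by
  unfold evk
  rw [MonoidAlgebra.lift_single]
  simp

/-- The homomorphism `u ↦ 1 + w(u) ε`. -/
def epsHom (w : Additive Kˣ →+ K) : Kˣ →* DualNumber K where
  toFun u := 1 + inr (w (Additive.ofMul u))
  map_one' := by
    rw [ofMul_one, map_zero, inr_zero, add_zero]
  map_mul' u v := by
    rw [ofMul_mul, map_add, inr_add, add_mul, mul_add, mul_one, one_mul, mul_add, mul_one,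
      inr_mul_inr, add_zero]
    abel

/-- The first order deformation. -/
def lam (w : Additive Kˣ →+ K) : MonoidAlgebra K Kˣ →ₐ[K] DualNumber K :=
  MonoidAlgebra.lift K (DualNumber K) Kˣ (epsHom w)

theorem lam_single (w : Additive Kˣ →+ K) (u : Kˣ) (c : K) :
    lam w (MonoidAlgebra.single u c) = c • (1 + inr (w (Additive.ofMul u))) := by
  unfold lam
  rw [MonoidAlgebra.lift_single]
  rfl

theorem snd_lam (w : Additive Kˣ →+ K) (z : MonoidAlgebra K Kˣ) :
    (lam w z).snd = z.coeff.sum fun u c => c * w (Additive.ofMul u) := by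
  unfold lam
  rw [MonoidAlgebra.lift_apply, Finsupp.sum, Finsupp.sum, snd_sum]
  refine Finset.sum_congr rfl fun u _ => ?_
  change (z.coeff u • ((1 : DualNumber K) + inr (w (Additive.ofMul u)))).snd = _
  rw [snd_smul, snd_add, snd_one, snd_inr, zero_add, smul_eq_mul]

/-- If the evaluations at all multiples of `M` vanish, the derivative vanishes. -/
theorem lam_eq_zero (w : Additive Kˣ →+ K) {M : ℕ} (hM : M ≠ 0) {z : MonoidAlgebra K Kˣ}
    (hz : ∀ k : ℕ, evk K (M * k) z = 0) : (lam w z).snd = 0 := by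
  classical
  obtain ⟨c, hc⟩ : ∃ c, c = z.coeff := ⟨_, rfl⟩
  obtain ⟨c', hc'⟩ : ∃ c' : Kˣ →₀ K, c' = c.mapDomain (fun u => u ^ M) := ⟨_, rfl⟩
  have h1 : ∀ k : ℕ, c'.sum (fun v a => a * (v : K) ^ k) = 0 := by
    intro k
    have h2 := hz k
    unfold evk at h2
    rw [MonoidAlgebra.lift_apply, ← hc] at h2
    rw [hc', Finsupp.sum_mapDomain_index (fun v => zero_mul _) (fun v a b => add_mul _ _ _)]
    rw [← h2]
    refine Finsupp.sum_congr fun u _ => ?_
    simp [pow_mul]
  have hli : LinearIndependent K (fun v : Kˣ => (⇑(powersHom K (v : K)) : Multiplicative ℕ → K)) := by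
    have h3 := (linearIndependent_monoidHom (Multiplicative ℕ) K).comp
      (fun v : Kˣ => powersHom K (v : K)) ((powersHom K).injective.comp Units.val_injective)
    exact h3
  have h4 : c' = 0 := by
    rw [linearIndependent_iff] at hli
    apply hli
    funext k
    rw [Finsupp.linearCombination_apply, Finsupp.sum, Finset.sum_apply]
    rw [Pi.zero_apply, ← h1 k.toAdd, Finsupp.sum]
    refine Finset.sum_congr rfl fun v _ => ?_
    rw [Pi.smul_apply, powersHom_apply, smul_eq_mul]
  have h5 : c'.sum (fun v a => a * w (Additive.ofMul v)) = 0 := by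
    rw [h4, Finsupp.sum_zero_index]
  rw [hc', Finsupp.sum_mapDomain_index (fun v => zero_mul _) (fun v a b => add_mul _ _ _)] at h5
  have h6 : c.sum (fun u a => a * w (Additive.ofMul (u ^ M))) =
      (M : K) * c.sum (fun u a => a * w (Additive.ofMul u)) := by
    rw [Finsupp.sum, Finsupp.sum, Finset.mul_sum]
    refine Finset.sum_congr rfl fun u _ => ?_
    rw [ofMul_pow, map_nsmul, nsmul_eq_mul]
    ring
  rw [h6] at h5
  rw [snd_lam, ← hc]
  exact (mul_eq_zero.1 h5).resolve_left (Nat.cast_ne_zero.2 hM)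

end groupring

variable {K : Type} [Field K] [CharZero K] {ι : Type} [Fintype ι] [DecidableEq ι]
  {Γ : Type} [Group Γ] {R : Representation K Γ (ι → K)}

theorem toM_sum {n : ℕ} (f : Fin n → Module.End K (ι → K)) :
    toM (∑ i, f i) = ∑ i, toM (f i) := map_sum LinearMap.toMatrix' _ _

theorem toM_smul (c : K) (f : Module.End K (ι → K)) : toM (c • f) = c • toM f :=
  map_smul LinearMap.toMatrix' _ _

/-- The projection to a line of a basis. -/
def pr {n : ℕ} (b : Basis (Fin n) K (ι → K)) (i : Fin n) : Module.End K (ι → K) :=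
  (b.coord i).smulRight (b i)

theorem sum_pr {n : ℕ} (b : Basis (Fin n) K (ι → K)) (c : Fin n → K) (j : Fin n) :
    (∑ i, c i • pr b i) (b j) = c j • b j := by
  rw [LinearMap.sum_apply, Finset.sum_eq_single j]
  · rw [LinearMap.smul_apply, pr, LinearMap.smulRight_apply, Basis.coord_apply, Basis.repr_self,
      Finsupp.single_eq_same, one_smul]
  · intro i _ hi
    rw [LinearMap.smul_apply, pr, LinearMap.smulRight_apply, Basis.coord_apply, Basis.repr_self,
      Finsupp.single_eq_of_ne hi, zero_smul, smul_zero]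
  · intro h
    exact absurd (Finset.mem_univ j) h

/-- The generic element of the torus, translated by `x`. -/
def gen {n : ℕ} (b : Basis (Fin n) K (ι → K)) (a : Fin n → Kˣ) (x : Module.End K (ι → K)) :
    MvPolynomial (ι × ι) K →ₐ[K] MonoidAlgebra K Kˣ :=
  aeval fun p => ∑ i, MonoidAlgebra.single (a i) (toM (x * pr b i) p.1 p.2)

theorem evk_gen {n : ℕ} (b : Basis (Fin n) K (ι → K)) (a : Fin n → Kˣ)
    (x F : Module.End K (ι → K)) (hF : ∀ i, F (b i) = (a i : K) • b i) (k : ℕ)
    (f : MvPolynomial (ι × ι) K) : evk K k (gen b a x f) = ev (toM (x * F ^ k)) f := by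
  have h1 : F ^ k = ∑ i, ((a i : K) ^ k) • pr b i := by
    refine b.ext fun j => ?_
    rw [sum_pr]
    induction k with
    | zero => rw [pow_zero, pow_zero, one_smul]; rfl
    | succ k ih => rw [pow_succ', Module.End.mul_apply, ih, map_smul, hF, smul_smul, pow_succ]
  have h2 : ((evk K k).comp (gen b a x)) = ev (toM (x * F ^ k)) := by
    refine MvPolynomial.algHom_ext fun p => ?_
    rw [AlgHom.comp_apply, gen, aeval_X, map_sum, ev_X, h1, Finset.mul_sum]
    have h3 : toM (∑ i, x * (((a i : K) ^ k) • pr b i)) =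
        ∑ i, ((a i : K) ^ k) • toM (x * pr b i) := by
      rw [toM_sum]
      refine Finset.sum_congr rfl fun i _ => ?_
      rw [mul_smul_comm, toM_smul]
    rw [h3, Matrix.sum_apply]
    refine Finset.sum_congr rfl fun i _ => ?_
    rw [evk_single, Matrix.smul_apply, smul_eq_mul, mul_comm]
  exact congrArg (fun φ : MvPolynomial (ι × ι) K →ₐ[K] K => φ f) h2

theorem lam_gen {n : ℕ} (b : Basis (Fin n) K (ι → K)) (a : Fin n → Kˣ) (w : Additive Kˣ →+ K)
    (x y : Module.End K (ι → K)) (hy : ∀ i, y (b i) = w (Additive.ofMul (a i)) • b i)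
    (f : MvPolynomial (ι × ι) K) : (lam w (gen b a x f)).fst = ev (toM x) f ∧
      (lam w (gen b a x f)).snd = ev (toM x) (D (toM y) f) := by
  have h1 : (1 : Module.End K (ι → K)) = ∑ i, (1 : K) • pr b i :=
    b.ext fun j => by rw [sum_pr, one_smul]; rfl
  have h2 : y = ∑ i, w (Additive.ofMul (a i)) • pr b i := b.ext fun j => by rw [sum_pr, hy]
  have hX : ∀ p : ι × ι, lam w (gen b a x (X p)) =
      inl ((toM x) p.1 p.2) + inr ((toM x * toM y) p.1 p.2) := by
    intro p
    have e1 : toM x = ∑ i, toM (x * pr b i) := by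
      conv_lhs => rw [← mul_one x, h1]
      rw [Finset.mul_sum, toM_sum]
      refine Finset.sum_congr rfl fun i _ => ?_
      rw [one_smul]
    have e2 : toM x * toM y = ∑ i, w (Additive.ofMul (a i)) • toM (x * pr b i) := by
      rw [← toM_mul, h2, Finset.mul_sum, toM_sum]
      refine Finset.sum_congr rfl fun i _ => ?_
      rw [mul_smul_comm, toM_smul]
    rw [gen, aeval_X, map_sum, e2]
    conv_rhs => rw [e1]
    rw [Matrix.sum_apply, Matrix.sum_apply, inl_sum, inr_sum, ← Finset.sum_add_distrib]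
    refine Finset.sum_congr rfl fun i _ => ?_
    rw [lam_single, smul_add, Matrix.smul_apply, smul_eq_mul]
    ext
    · simp
    · simp [mul_comm]
  induction f using MvPolynomial.induction_on with
  | C c =>
    have h3 : gen b a x (C c) = algebraMap K _ c := by
      rw [← MvPolynomial.algebraMap_eq, AlgHom.commutes]
    rw [h3, AlgHom.commutes, ev_C, ev_D_C]
    exact ⟨rfl, rfl⟩
  | add p q hp hq =>
    rw [map_add, map_add, map_add, map_add, map_add, fst_add, snd_add, hp.1, hp.2, hq.1, hq.2]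
    exact ⟨rfl, rfl⟩
  | mul_X p s hp =>
    rw [map_mul, map_mul, fst_mul, snd_mul, hp.1, hp.2, hX, ev_D_mul, ev_D_X, map_mul, ev_X]
    simp only [fst_add, fst_inl, fst_inr, add_zero, snd_add, snd_inl, snd_inr, zero_add,
      smul_eq_mul, MulOpposite.smul_eq_mul_unop, MulOpposite.unop_op, true_and]
    ring

/-- The operators with eigenvalues `w(a i)` are in the Lie algebra. -/
theorem slope_Lg {n : ℕ} (F : Γ) (b : Basis (Fin n) K (ι → K)) (a : Fin n → Kˣ)
    (w : Additive Kˣ →+ K) (hF : ∀ i, R F (b i) = (a i : K) • b i) {y : Module.End K (ι → K)}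
    (hy : ∀ i, y (b i) = w (Additive.ofMul (a i)) • b i) : y ∈ Lg R := by
  rintro f ⟨Δ, hΔ, hf⟩
  refine ⟨Δ, hΔ, fun g hg => ?_⟩
  obtain ⟨M, hM0, hM⟩ : ∃ M : ℕ, M ≠ 0 ∧ F ^ M ∈ Δ := by
    obtain ⟨M, hM, h⟩ := Subgroup.exists_pow_mem_of_index_ne_zero (H := Δ) hΔ.index_ne_zero F
    exact ⟨M, by omega, h.2⟩
  rw [← (lam_gen b a w (R g) y hy f).2]
  refine lam_eq_zero w hM0 fun k => ?_
  rw [evk_gen b a (R g) (R F) hF]
  have h1 : R g * R F ^ (M * k) = R (g * (F ^ M) ^ k) := by
    rw [map_mul, map_pow, map_pow, pow_mul]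
  rw [h1]
  exact hf _ (Δ.mul_mem hg (Δ.pow_mem hM k))

end

end Pool.Agent.Y144.QF
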