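import Mathlib
import Pool.Agent.W528.ZC.Fin
import Pool.Agent.W528.ZC.Eqs
import Pool.Agent.Y144.QF.Main
import Pool.Agent.Y144.QF.Slope

/-!
# The theorem in terms of matrices, and the properties of the Lie algebra
-/

set_option linter.unusedSectionVars false
set_option linter.deprecated false

namespace Pool.Agent.Y144.QF

open Module MvPolynomial TensorProduct Pool.Agent.H204R3.GP Pool.Agent.H204R3.SP
open Pool.Agent.W522.U Pool.Agent.W528.ZC
open Pool.Agent.W528.Tor (AltDual)

noncomputable section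

section lie

variable {K : Type} [Field K] [CharZero K] {ι : Type} [Fintype ι] [DecidableEq ι]
  {Γ : Type} [Group Γ] {R : Representation K Γ (ι → K)}
  {ω : (ι → K) →ₗ[K] (ι → K) →ₗ[K] K} {χ : Γ →* K}

theorem isLie_HZ (hnd : ∀ u, (∀ v, ω u v = 0) → u = 0)
    (hω : ∀ s u v, ω (R s u) (R s v) = χ s * ω u v) : IsLie ω R (HZ ω R) where
  br := fun _ hx _ hy => HZ_br hBR hx hy
  conj := fun s _ hx => HZ_conj hCJ hω s hx
  comm := fun _ hx _ hP => HZ_comm hx hP
  skew := fun _ hx => hx.2
  unip := by
    intro γ hγ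
    by_cases h : ∃ u, (R γ - 1) u ≠ 0
    · obtain ⟨u, hu⟩ := h
      exact HZ_unip hUN hnd hω hγ hu
    · push Not at h
      rw [show R γ - 1 = 0 from LinearMap.ext h]
      exact Submodule.zero_mem _

theorem hodgeGen_HZ (hP : PinkGen ω R) : HodgeGen R (HZ ω R) := by
  intro W hW
  refine pot_of_hodge hP W fun p hp u hu => ?_
  obtain ⟨h1, h2⟩ := HZ_hodge hID hp
  have h3 := hW _ h1 h2 u hu
  rw [LinearMap.sub_apply, LinearMap.smul_apply, Module.End.one_apply] at h3
  have h4 := W.add_mem h3 (W.smul_mem (1 / 2 : K) hu)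
  rwa [sub_add_cancel] at h4

/-- The slope operators are in the Lie algebra. -/
theorem slope_HZ (hω : ∀ s u v, ω (R s u) (R s v) = χ s * ω u v) {n : ℕ} (F : Γ)
    (b : Basis (Fin n) K (ι → K)) (a : Fin n → Kˣ) (c : Kˣ) (w : Additive Kˣ →+ ℚ)
    (hF : ∀ i, R F (b i) = (a i : K) • b i) (hc : (c : K) = χ F) {x : Module.End K (ι → K)}
    (hw : w (Additive.ofMul c) = 1)
    (hx : ∀ i, x (b i) = (((w (Additive.ofMul (a i)) - 1 / 2 : ℚ)) : K) • b i) :
    x ∈ HZ ω R := by
  refine ⟨⟨1 / 2, ?_⟩, ?_⟩
  · let f : ℚ →+ K := (Rat.castHom K).toAddMonoidHom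
    refine slope_Lg F b a (f.comp w) hF fun i => ?_
    rw [LinearMap.add_apply, hx, LinearMap.smul_apply, Module.End.one_apply, ← add_smul]
    congr 1
    change _ = ((w (Additive.ofMul (a i)) : ℚ) : K)
    push_cast
    ring
  · have key : ∀ i j, ω (x (b i)) (b j) + ω (b i) (x (b j)) = 0 := by
      intro i j
      rw [hx, hx, map_smul, map_smul, LinearMap.smul_apply, smul_eq_mul, smul_eq_mul, ← add_mul]
      by_cases h0 : ω (b i) (b j) = 0
      · rw [h0, mul_zero]
      · have h1 := hω F (b i) (b j)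
        rw [hF, hF, map_smul, map_smul, LinearMap.smul_apply, smul_eq_mul, smul_eq_mul,
          ← mul_assoc] at h1
        have h2 := mul_right_cancel₀ h0 h1
        have h3 : a i * a j = c := Units.ext (by rw [Units.val_mul, hc, ← h2, mul_comm])
        have h4 : w (Additive.ofMul (a i)) + w (Additive.ofMul (a j)) = 1 := by
          rw [← map_add, ← ofMul_mul, h3, hw]
        have h5 : (((w (Additive.ofMul (a i)) - 1 / 2 : ℚ)) : K) +
            (((w (Additive.ofMul (a j)) - 1 / 2 : ℚ)) : K) = 0 := by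
          rw [← Rat.cast_add, show w (Additive.ofMul (a i)) - 1 / 2 +
            (w (Additive.ofMul (a j)) - 1 / 2) = 0 by linarith, Rat.cast_zero]
        rw [h5, zero_mul]
    intro u v
    rw [← b.sum_repr u, ← b.sum_repr v]
    simp only [map_sum, map_smul, LinearMap.sum_apply, LinearMap.smul_apply, smul_eq_mul]
    rw [← Finset.sum_add_distrib]
    refine Finset.sum_eq_zero fun i _ => ?_
    rw [← mul_add, ← Finset.sum_add_distrib]
    refine mul_eq_zero_of_right _ (Finset.sum_eq_zero fun j _ => ?_)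
    rw [← mul_add, key, mul_zero]

end lie

variable {k : Type} [Field k] [CharZero k] {ι : Type} [Fintype ι] [DecidableEq ι] {Γ : Type}
  [Group Γ] {Ω : Type} [Field Ω] [Algebra k Ω]

theorem main_M [CharZero Ω] [IsAlgClosed Ω] [Algebra.IsAlgebraic k Ω] {ρ : Γ →* Matrix ι ι k}
    {χ : Γ →* k} {ψ : Matrix ι ι k} (hψ : IsUnit ψ.det) {E : Set (Matrix ι ι k)}
    (h : Known Ω ρ χ ψ E)
    (hodd : HasOne (bf (ψ.map (algebraMap k Ω))) (repM ρ Ω) ((algebraMap k Ω).toMonoidHom.comp χ))
    (g : Matrix ι ι Ω) (hg : IsUnit g.det) :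
    InIdentityComponent ρ g ↔
      (∃ c : Ω, c ≠ 0 ∧ g.transpose * ψ.map (algebraMap k Ω) * g = c • ψ.map (algebraMap k Ω)) ∧
      ∀ e ∈ E, g * e.map (algebraMap k Ω) = e.map (algebraMap k Ω) * g := by
  have hψ' : IsUnit (ψ.map (algebraMap k Ω)).det := by
    have h1 := (algebraMap k Ω).map_det ψ
    rw [RingHom.mapMatrix_apply] at h1
    rw [← h1]
    exact hψ.map _
  have hω : ∀ s u v, bf (ψ.map (algebraMap k Ω)) (repM ρ Ω s u) (repM ρ Ω s v) =
      ((algebraMap k Ω).toMonoidHom.comp χ) s * bf (ψ.map (algebraMap k Ω)) u v := by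
    intro s u v
    have h1 := congrArg (fun M : Matrix ι ι k => M.map (algebraMap k Ω)) (h.form s)
    simp only [Matrix.map_mul, Matrix.transpose_map] at h1
    rw [repM_apply, Matrix.toLin'_apply, Matrix.toLin'_apply, bf_mul, h1, ← bf_smul]
    congr 3
    ext i j
    simp only [Matrix.map_apply, Matrix.smul_apply, smul_eq_mul, map_mul]
    rfl
  have hnd := fun u => bf_nondeg (ψ := ψ.map (algebraMap k Ω)) hψ' u
  rw [inIC_iff]
  constructor
  · intro hz
    refine ⟨?_, fun e he => ?_⟩
    · by_cases h0 : bf (ψ.map (algebraMap k Ω)) = 0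
      · refine ⟨1, one_ne_zero, ?_⟩
        have h1 : ∀ M : Matrix ι ι Ω, M = 0 := by
          intro M
          have h2 : ψ.map (algebraMap k Ω) = 0 := bf_inj fun u v => by
            rw [h0, bf_apply, Matrix.zero_mulVec, dotProduct_zero]
            rfl
          have h3 := Matrix.mul_nonsing_inv _ hψ'
          rw [h2, zero_mul] at h3
          rw [← mul_one M, ← h3, mul_zero]
        rw [h1 (g.transpose * _ * g), h1 ((1 : Ω) • _)]
      · obtain ⟨c, hc⟩ := InZ_form _ hω h0 hz
        have h1 : g.transpose * ψ.map (algebraMap k Ω) * g = c • ψ.map (algebraMap k Ω) := by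
          refine bf_inj fun u v => ?_
          rw [← bf_mul, bf_smul, ← hc, Matrix.toLin'_apply, Matrix.toLin'_apply]
        refine ⟨c, ?_, h1⟩
        rintro rfl
        rw [zero_smul] at h1
        apply h0
        have h2 : ψ.map (algebraMap k Ω) = 0 := by
          have h3 : (g.transpose)⁻¹ * (g.transpose * ψ.map (algebraMap k Ω) * g) * g⁻¹ =
              ψ.map (algebraMap k Ω) := by
            have hgt : IsUnit g.transpose.det := by rwa [Matrix.det_transpose]
            rw [mul_assoc g.transpose, ← mul_assoc, Matrix.nonsing_inv_mul _ hgt, one_mul,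
              mul_assoc, Matrix.mul_nonsing_inv _ hg, mul_one]
          rw [← h3, h1, mul_zero, zero_mul]
        rw [h2]
        refine LinearMap.ext fun u => LinearMap.ext fun v => ?_
        rw [bf_apply, Matrix.zero_mulVec, dotProduct_zero]
        rfl
    · obtain ⟨Δ, hΔ, hE⟩ := h.endo
      have h1 := InZ_comm hz (P := Matrix.toLin' (e.map (algebraMap k Ω)))
        ⟨Δ, hΔ, fun s hs => by
          rw [repM_apply]
          have h2 := congrArg (fun M : Matrix ι ι k => Matrix.toLin' (M.map (algebraMap k Ω)))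
            (hE s hs e he)
          simp only [Matrix.map_mul, Matrix.toLin'_mul] at h2
          exact h2⟩
      have h2 := congrArg toM h1
      rwa [toM_mul, toM_mul, toM_toLin, toM_toLin] at h2
  · rintro ⟨⟨c, hc, hgc⟩, hE⟩
    have hlin : ∀ M ∈ Submodule.span k E, g * M.map (algebraMap k Ω) =
        M.map (algebraMap k Ω) * g := by
      intro M hM
      induction hM using Submodule.span_induction with
      | mem M hM => exact hE M hM
      | zero => rw [Matrix.map_zero _ (map_zero _), mul_zero, zero_mul]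
      | add M N _ _ h1 h2 =>
        rw [Matrix.map_add _ (map_add _), mul_add, add_mul, h1, h2]
      | smul a M _ h1 =>
        have h2 : (a • M).map (algebraMap k Ω) = algebraMap k Ω a • M.map (algebraMap k Ω) := by
          ext i j
          simp only [Matrix.map_apply, Matrix.smul_apply, smul_eq_mul, map_mul]
        rw [h2, mul_smul_comm, smul_mul_assoc, h1]
    refine main_Z (χ := (algebraMap k Ω).toMonoidHom.comp χ) (hasProj_repM ρ h.semi) hnd hω
      hodd ?_ (Matrix.toLin' g) ?_ hc ?_
    · obtain ⟨p, hp⟩ := h.hodgeTate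
      exact ⟨_, (wh_iff ρ _ p).1 hp⟩
    · rintro P ⟨Δ, hΔ, hP⟩
      have h1 := comm_ext (Ω := Ω) (ρ '' (Δ : Set Γ)) (toM P) (by
        rintro _ ⟨s, hs, rfl⟩
        have h2 := congrArg toM (hP s hs)
        rwa [toM_mul, toM_mul, toM_repM] at h2)
      have h2 : ∀ Q ∈ Submodule.span Ω {Q : Matrix ι ι Ω | ∃ N : Matrix ι ι k,
          (∀ M ∈ ρ '' (Δ : Set Γ), N * M = M * N) ∧ Q = N.map (algebraMap k Ω)},
          g * Q = Q * g := by
        intro Q hQ
        induction hQ using Submodule.span_induction with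
        | mem Q hQ =>
          obtain ⟨N, hN, rfl⟩ := hQ
          exact hlin N (h.comm Δ hΔ N fun s hs => hN _ ⟨s, hs, rfl⟩)
        | zero => rw [mul_zero, zero_mul]
        | add M N _ _ h1 h2 => rw [mul_add, add_mul, h1, h2]
        | smul a M _ h1 => rw [mul_smul_comm, smul_mul_assoc, h1]
      have h3 := h2 _ h1
      have h4 := congrArg Matrix.toLin' h3
      rw [Matrix.toLin'_mul, Matrix.toLin'_mul, toLin_toM] at h4
      exact h4
    · intro u v
      rw [Matrix.toLin'_apply, Matrix.toLin'_apply, bf_mul, hgc, bf_smul]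

end

end Pool.Agent.Y144.QF
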