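import Mathlib
import Pool.Agent.Y144.QF.Abs


/-!
# Square-zero elements of rank one on a strongly irreducible subspace
-/

set_option linter.unusedSectionVars false

namespace Pool.Agent.Y144.QF

open Module Pool.Agent.H204R3.SP Pool.Agent.H204R3.GP Pool.Agent.W522.U Pool.Agent.W529.Ta
open Pool.Agent.W528.Odd Pool.Agent.Y126.OT Pool.Agent.TH118.CR
open Pool.Agent.W528.Tor (AltDual)
open Pool.Agent.Y126.Toric (IsDefect mult_res)

noncomputable section

variable {K : Type} [Field K] [CharZero K] {X : Type} [AddCommGroup X] [Module K X]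
  [FiniteDimensional K X] {Γ : Type} [Group Γ] {R : Representation K Γ X} {χ : Γ →* K}

/-- The defects on `U`. -/
theorem defect_res {ω : X →ₗ[K] X →ₗ[K] K} {L : Submodule K (Module.End K X)}
  (hL : IsLie ω R L) (hnd : ∀ u, (∀ v, ω u v = 0) → u = 0)
    (hωR : ∀ g u v, ω (R g u) (R g v) = χ g * ω u v) (hss : HasProj R) {U : Submodule K X}
    (hU : SI R U) {γ : Γ} {N : Module.End K U} (hNx : ∀ u : U, ((N u : U) : X) = (R γ - 1) u)
    {d : ℕ} (hd : IsDefect R U γ d) (hd0 : d ≠ 0) : Defect (resL L U) N d := by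
  rcases hd with hd | ⟨γ', hγ', a, ha, hd⟩
  · exact Or.inl (by rw [rk_res hNx, hd])
  · right
    have h1 : R γ' - 1 ≠ 0 := by
      intro h
      apply hd0
      rw [hd, h, mul_zero]
      have h2 : (0 : Module.End K X).maxGenEigenspace a = ⊥ := by
        rw [eq_bot_iff]
        intro w hw
        rw [Module.End.mem_maxGenEigenspace] at hw
        obtain ⟨k, hk⟩ := hw
        rw [zero_sub] at hk
        have h3 : (-(a • (1 : Module.End K X))) ^ k = ((-a) ^ k) • (1 : Module.End K X) := by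
          rw [← neg_smul, smul_pow, one_pow]
        rw [h3, LinearMap.smul_apply, Module.End.one_apply] at hk
        exact (smul_eq_zero.1 hk).resolve_left (pow_ne_zero _ (neg_ne_zero.2 ha))
      rw [h2, bot_inf_eq, finrank_bot]
    obtain ⟨x, hx⟩ : ∃ x, (R γ' - 1) x ≠ 0 := by
      by_contra hcon
      push Not at hcon
      exact h1 (LinearMap.ext hcon)
    have hN1 : R γ' - 1 ∈ L :=
      hL.unip γ' hγ'
    have hst := hL.stable hss hU.2.1 hN1
    refine ⟨(R γ' - 1).restrict hst, ⟨_, hN1, fun u => rfl⟩, ?_, a, ha, ?_⟩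
    · have h3 := sq_res (Y := (R γ' - 1).restrict hst) (fun u => rfl) 0 (by rw [hγ', zero_smul])
      rw [h3, zero_smul]
    · rw [hd]
      refine (mult_res (Y := N * (R γ' - 1).restrict hst) (fun u => ?_) a).symm
      rw [Module.End.mul_apply, hNx, Module.End.mul_apply]
      rfl

/-- An element of square zero on the whole space that is extremal on `U`. -/
theorem exists_ext [IsAlgClosed K] {ω : X →ₗ[K] X →ₗ[K] K}
    {L : Submodule K (Module.End K X)} (hL : IsLie ω R L) (hnd : ∀ u, (∀ v, ω u v = 0) → u = 0)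
    (hωR : ∀ g u v, ω (R g u) (R g v) = χ g * ω u v) (hss : HasProj R) {U : Submodule K X}
    (hU : SI R U) {N : Module.End K X} (hN : N ∈ L) (hN2 : N * N = 0)
    (hN0 : U.map N ≠ ⊥) : ∃ e ∈ L, e * e = 0 ∧ ∃ Y ∈ resL L U,
      (∀ u : U, ((Y u : U) : X) = e u) ∧ Y * Y = 0 ∧ Y ≠ 0 ∧
      ∀ y ∈ resL L U, ∃ c : K, Y * y * Y = c • Y := by
  classical
  have hex : ∃ n, ∃ e ∈ L, e * e = 0 ∧ U.map e ≠ ⊥ ∧ finrank K (U.map e) = n :=
    ⟨_, N, hN, hN2, hN0, rfl⟩
  obtain ⟨e, he, he2, he0, hen⟩ := Nat.find_spec hex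
  have hmin : ∀ a ∈ L, a * a = 0 → U.map a ≠ ⊥ → finrank K (U.map e) ≤
      finrank K (U.map a) := by
    intro a ha ha2 ha0
    rw [hen]
    exact Nat.find_min' hex ⟨a, ha, ha2, ha0, rfl⟩
  have hst := hL.stable hss hU.2.1 he
  obtain ⟨Y, hY⟩ : ∃ Y : Module.End K U, Y = e.restrict hst := ⟨_, rfl⟩
  have hYe : ∀ u : U, ((Y u : U) : X) = e u := fun u => by rw [hY]; rfl
  have hbr : ∀ X' ∈ L, ∀ Y ∈ L, X' * Y - Y * X' ∈ L :=
    fun _ h _ h' => hL.br _ h _ h'
  have hne : ∀ {y : Module.End K U} {x : Module.End K X}, (∀ u : U, ((y u : U) : X) = x u) →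
      (y = 0 ↔ U.map x = ⊥) := by
    intro y x hyx
    constructor
    · rintro rfl
      rw [eq_bot_iff]
      rintro _ ⟨u, hu, rfl⟩
      rw [Submodule.mem_bot, ← hyx ⟨u, hu⟩]
      rfl
    · intro h
      refine LinearMap.ext fun u => Subtype.ext ?_
      rw [hyx]
      have h1 : x u ∈ U.map x := Submodule.mem_map_of_mem u.2
      rw [h, Submodule.mem_bot] at h1
      rw [h1]
      rfl
  refine ⟨e, he, he2, Y, ⟨e, he, hYe⟩, hYe, ?_, ?_, ?_⟩
  · have h3 := sq_res hYe 0 (by rw [he2, zero_smul])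
    rw [h3, zero_smul]
  · intro h
    exact he0 ((hne hYe).1 h)
  · rintro y ⟨x, hx, hyx⟩
    let S : Submodule K (Module.End K U) :=
      { carrier := {z | ∃ a ∈ L, (∀ v, a v ∈ LinearMap.range e) ∧
          (∀ v ∈ LinearMap.ker e, a v = 0) ∧ ∀ u : U, ((z u : U) : X) = a u}
        zero_mem' := ⟨0, L.zero_mem, fun v => Submodule.zero_mem _, fun v _ => rfl,
          fun u => rfl⟩
        add_mem' := by
          rintro z z' ⟨a, h1, h2, h3, h4⟩ ⟨a', h1', h2', h3', h4'⟩
          refine ⟨a + a', L.add_mem h1 h1', fun v => Submodule.add_mem _ (h2 v) (h2' v),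
            fun v hv => ?_, fun u => ?_⟩
          · rw [LinearMap.add_apply, h3 v hv, h3' v hv, add_zero]
          · rw [LinearMap.add_apply, LinearMap.add_apply, ← h4, ← h4']
            rfl
        smul_mem' := by
          rintro c z ⟨a, h1, h2, h3, h4⟩
          refine ⟨c • a, L.smul_mem _ h1, fun v => Submodule.smul_mem _ _ (h2 v),
            fun v hv => ?_, fun u => ?_⟩
          · rw [LinearMap.smul_apply, h3 v hv, smul_zero]
          · rw [LinearMap.smul_apply, LinearMap.smul_apply, ← h4]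
            rfl }
    have heS : Y ∈ S := ⟨e, he, fun v => ⟨v, rfl⟩, fun v hv => hv, hYe⟩
    refine extremal S heS (fun h => he0 ((hne hYe).1 h)) ?_ y ?_
    · rintro z ⟨a, h1, h2, h3, h4⟩ hz
      rw [rk_res hYe, rk_res h4]
      refine hmin a h1 ?_ fun h => hz ((hne h4).2 h)
      refine LinearMap.ext fun v => ?_
      obtain ⟨w, hw⟩ := h2 v
      rw [Module.End.mul_apply, LinearMap.zero_apply]
      refine h3 _ ?_
      rw [LinearMap.mem_ker, ← hw, ← Module.End.mul_apply, he2]
      rfl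
    · refine ⟨e * x * e, sq_mul_mem hbr he he2 hx, fun v => ⟨_, rfl⟩, fun v hv => ?_, fun u => ?_⟩
      · rw [LinearMap.mem_ker] at hv
        rw [Module.End.mul_apply, hv, map_zero]
      · rw [Module.End.mul_apply, Module.End.mul_apply, Module.End.mul_apply,
          Module.End.mul_apply, hYe, hyx, hYe]

end

end Pool.Agent.Y144.QF
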