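import Mathlib
import Pool.Agent.Y126.JP.Glob
import Pool.Agent.Y144.QF.Alt


/-!
# Places of bad reduction with a Frobenius eigenvalue of odd multiplicity
-/

set_option linter.unusedSectionVars false
set_option linter.unusedSimpArgs false

namespace Pool.Agent.Y144.QF

open Module Pool.Agent.H204R3.SP Pool.Agent.H204R3.GP Pool.Agent.W522.U Pool.Agent.W529.Ta
open Pool.Agent.W528.Odd Pool.Agent.Y126.OT Pool.Agent.TH118.CR Pool.Agent.Y126.Toric
open Pool.Agent.W528.Tor (AltDual)
open Pool.Agent.Y126.Toric (IsDefect mult_res)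
open Pool.Agent.Y126.JP

noncomputable section

variable {K : Type} [Field K] [CharZero K] [IsAlgClosed K] {X : Type} [AddCommGroup X] [Module K X]
  [FiniteDimensional K X] {Γ : Type} [Group Γ] {R : Representation K Γ X} {χ : Γ →* K}
  {ω : X →ₗ[K] X →ₗ[K] K} {L : Submodule K (Module.End K X)}
  (hL : IsLie ω R L) (hnd : ∀ u, (∀ v, ω u v = 0) → u = 0)
  (hωR : ∀ g u v, ω (R g u) (R g v) = χ g * ω u v) (hss : HasProj R) {U : Submodule K X}
  (hU : SI R U)

include hL hnd hωR hss hU in
/-- **Places of bad reduction.** -/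
theorem one_of_frob (halt : AltDual R χ U) (hP : HodgeGen R L) {γ F : Γ}
    (hγ : (R γ - 1) * (R γ - 1) = 0) (hN0 : U.map (R γ - 1) ≠ ⊥)
    (hFN : R F * (R γ - 1) = χ F • ((R γ - 1) * R F)) (hFU : ∀ u ∈ U, R F u ∈ U)
    {n : ℕ} {b : Basis (Fin n) K X} {a : Fin n → Kˣ} {c : Kˣ} {w : Additive Kˣ →+ ℚ}
    (hc : (c : K) = χ F) (hwc : w (Additive.ofMul c) = 1)
    (hF : ∀ i, R F (b i) = (a i : K) • b i)
    (hsl : ∀ x : Module.End K X,
      (∀ i, x (b i) = (((w (Additive.ofMul (a i)) - 1 / 2 : ℚ)) : K) • b i) → x ∈ L)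
    (ha : ∀ i, a i = 1 ∨ w (Additive.ofMul (a i)) = 1 / 2 ∨
      (a i = c ∧ b i ∈ LinearMap.range (R γ - 1)))
    (hodd : ∃ t : K, Odd (finrank K (Module.End.maxGenEigenspace (R F) t ⊓ U : Submodule K X)))
    (hsmall : (∀ d, (∀ δ, IsDefect R U γ δ → d ∣ δ) → 4 * d < finrank K U) ∨
      ∃ t : Kˣ, w (Additive.ofMul t) = 1 / 2 ∧
        (Module.End.maxGenEigenspace (R F) t ⊓ U : Submodule K X) ≠ ⊥ ∧
        8 * finrank K (Module.End.maxGenEigenspace (R F) t ⊓ U : Submodule K X) < finrank K U) :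
    ∃ e ∈ L, e * e = 0 ∧ finrank K (U.map e) = 1 := by
  obtain ⟨Δ₁, hΔ₁, hUΔ₁⟩ := id hU.2.1
  obtain ⟨Δ₂, hΔ₂, B, hB0, hBalt, hB⟩ := halt
  obtain ⟨Δ, hΔd⟩ : ∃ Δ, Δ = Δ₁ ⊓ Δ₂ := ⟨_, rfl⟩
  have hΔ : Δ.FiniteIndex := by rw [hΔd]; infer_instance
  have hUΔ : ∀ g ∈ Δ, ∀ u ∈ U, R g u ∈ U := fun g hg => hUΔ₁ g (by rw [hΔd] at hg; exact hg.1)
  have hBΔ : ∀ g ∈ Δ, ∀ u ∈ U, ∀ v ∈ U, B (R g u) (R g v) = χ g * B u v :=
    fun g hg => hB g (by rw [hΔd] at hg; exact hg.2)
  obtain ⟨y₀, hy₀, hy₀0⟩ := exists_ne hN0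
  have hN : R γ - 1 ∈ L := hL.unip γ hγ
  have hst := hL.stable hss hU.2.1 hN
  obtain ⟨N, hNd⟩ : ∃ N : Module.End K U, N = (R γ - 1).restrict hst := ⟨_, rfl⟩
  have hNx : ∀ u : U, ((N u : U) : X) = (R γ - 1) u := fun u => by rw [hNd]; rfl
  have hN2 : N * N = 0 := by
    have h3 := sq_res hNx 0 (by rw [hγ, zero_smul])
    rw [h3, zero_smul]
  have hNne : N ≠ 0 := by
    rintro rfl
    apply hy₀0
    rw [← hNx ⟨y₀, hy₀⟩]
    rfl
  -- the form on `U`
  obtain ⟨om, hom⟩ : ∃ om : U →ₗ[K] U →ₗ[K] K, om = B.compl₁₂ U.subtype U.subtype := ⟨_, rfl⟩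
  have hom' : ∀ u v : U, om u v = B u v := fun u v => by rw [hom]; rfl
  have halt' : ∀ v, om v v = 0 := fun v => by rw [hom']; exact hBalt v v.2
  have hndl : ∀ u, (∀ v, om u v = 0) → u = 0 := by
    intro u hu
    apply Subtype.ext
    exact du_left hU hU.2.1 hΔ hB0 hBΔ u u.2 (fun v hv => by
      have := hu ⟨v, hv⟩
      rwa [hom'] at this)
  have hanti := alt_anti halt'
  have hndr : ∀ u, (∀ v, om v u = 0) → u = 0 := fun u hu => hndl u fun v => by
    rw [hanti, hu, neg_zero]
  have hsim : ∀ (g : Δ) u v, om (resR R Δ U hUΔ g u) (resR R Δ U hUΔ g v) =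
      (χ.comp Δ.subtype) g * om u v := by
    intro g u v
    rw [hom', hom']
    exact hBΔ g.1 g.2 u u.2 v v.2
  have hsp : ∀ Y ∈ resL L U, ∀ u w, om (Y u) w + om u (Y w) = 0 := by
    rintro Y ⟨y, hy, hYy⟩ u w
    rw [hom', hom', hYy, hYy]
    exact hL.skewB hnd hωR hss hU.2.1 hΔ B hBΔ hy u u.2 w w.2
  have hirr : ∀ W : Submodule K U, (∀ Y ∈ resL L U, Y * Y = (1 / 4 : K) • 1 →
      ∀ u ∈ W, Y u ∈ W) → W = ⊥ ∨ W = ⊤ := fun W hW =>
    hL.irr hss hP hU W hW
  have hNm : N ∈ resL L U := ⟨_, hN, hNx⟩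
  -- the Frobenius element
  have hinv : R F⁻¹ * R F = 1 := by rw [← map_mul, inv_mul_cancel, map_one]
  have hinv' : R F * R F⁻¹ = 1 := by rw [← map_mul, mul_inv_cancel, map_one]
  have hFU' : ∀ u ∈ U, R F⁻¹ u ∈ U := by
    have h1 : U.map (R F) = U := by
      refine Submodule.eq_of_le_of_finrank_le ?_ ?_
      · rintro _ ⟨u, hu, rfl⟩
        exact hFU u hu
      · refine (LinearEquiv.finrank_eq (Submodule.equivMapOfInjective (R F) ?_ U)).le
        exact Function.LeftInverse.injective (g := R F⁻¹) fun v => LinearMap.congr_fun hinv v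
    intro u hu
    rw [← h1] at hu
    obtain ⟨v, hv, rfl⟩ := hu
    have h2 : R F⁻¹ (R F v) = v := LinearMap.congr_fun hinv v
    rw [h2]
    exact hv
  obtain ⟨FU, hFUd⟩ : ∃ FU : Module.End K U, FU = (R F).restrict hFU := ⟨_, rfl⟩
  obtain ⟨FU', hFUd'⟩ : ∃ FU' : Module.End K U, FU' = (R F⁻¹).restrict hFU' := ⟨_, rfl⟩
  have hFx : ∀ u : U, ((FU u : U) : X) = R F u := fun u => by rw [hFUd]; rfl
  have hFx' : ∀ u : U, ((FU' u : U) : X) = R F⁻¹ u := fun u => by rw [hFUd']; rfl
  have hFF : FU * FU' = 1 := LinearMap.ext fun u => Subtype.ext (by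
    rw [Module.End.mul_apply, hFx, hFx']
    exact LinearMap.congr_fun hinv' u)
  have hFF' : FU' * FU = 1 := LinearMap.ext fun u => Subtype.ext (by
    rw [Module.End.mul_apply, hFx', hFx]
    exact LinearMap.congr_fun hinv u)
  have hFG : ∀ Y ∈ resL L U, FU * Y * FU' ∈ resL L U := by
    rintro Y ⟨x, hx, hY⟩
    refine ⟨R F * x * R F⁻¹, hL.conj F _ hx, fun u => ?_⟩
    rw [Module.End.mul_apply, Module.End.mul_apply, hFx, hY, hFx']
    rfl
  have hFG' : ∀ Y ∈ resL L U, FU' * Y * FU ∈ resL L U := by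
    rintro Y ⟨x, hx, hY⟩
    refine ⟨R F⁻¹ * x * R F⁻¹⁻¹, hL.conj F⁻¹ _ hx, fun u => ?_⟩
    rw [Module.End.mul_apply, Module.End.mul_apply, hFx', hY, hFx, inv_inv]
    rfl
  -- the grading
  obtain ⟨f, hf⟩ : ∃ f : Kˣ → K, f = fun t =>
    (((2 * w (Additive.ofMul t) - 1 : ℚ)) : K) := ⟨_, rfl⟩
  have hf1 : f 1 = -1 := by
    rw [hf]
    change (((2 * w (Additive.ofMul 1) - 1 : ℚ)) : K) = -1
    rw [ofMul_one, map_zero]
    norm_num
  have hfc : f c = 1 := by
    rw [hf]
    change (((2 * w (Additive.ofMul c) - 1 : ℚ)) : K) = 1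
    rw [hwc]
    norm_num
  have hfh : ∀ t : Kˣ, w (Additive.ofMul t) = 1 / 2 → f t = 0 := by
    intro t ht
    rw [hf]
    change (((2 * w (Additive.ofMul t) - 1 : ℚ)) : K) = 0
    rw [ht]
    norm_num
  have hfm : ∀ t : Kˣ, f (c * t) = f t + 2 := by
    intro t
    rw [hf]
    change (((2 * w (Additive.ofMul (c * t)) - 1 : ℚ)) : K) =
      (((2 * w (Additive.ofMul t) - 1 : ℚ)) : K) + 2
    rw [ofMul_mul, map_add, hwc]
    push_cast
    ring
  obtain ⟨x, hx⟩ : ∃ x : Module.End K X, ∀ i, x (b i) = f (a i) • b i :=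
    ⟨b.constr K fun i => f (a i) • b i, fun i => b.constr_basis K _ i⟩
  have hxL : x ∈ L := by
    have h1 : (1 / 2 : K) • x ∈ L := by
      refine hsl _ fun i => ?_
      rw [LinearMap.smul_apply, hx, smul_smul, hf]
      congr 1
      push_cast
      ring
    have h2 := L.smul_mem (2 : K) h1
    rwa [smul_smul, show (2 : K) * (1 / 2) = 1 by norm_num, one_smul] at h2
  have hx3 : x * x * x = x := by
    refine b.ext fun i => ?_
    rw [Module.End.mul_apply, Module.End.mul_apply, hx, map_smul, hx, map_smul, map_smul, hx,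
      smul_smul, smul_smul]
    congr 1
    rcases ha i with h | h | ⟨h, -⟩
    · rw [h, hf1]; norm_num
    · rw [hfh _ h]; norm_num
    · rw [h, hfc]; norm_num
  have heig : ∀ (t : Kˣ) (v : X), R F v = (t : K) • v → x v = f t • v := fun t v hv =>
    diag_eig hF hx (k := 1) (by
      rw [pow_one, LinearMap.sub_apply, hv, LinearMap.smul_apply, Module.End.one_apply, sub_self])
  have hxN : x * (R γ - 1) = (R γ - 1) * x + (2 : K) • (R γ - 1) := by
    refine b.ext fun i => ?_
    rw [LinearMap.add_apply, Module.End.mul_apply, Module.End.mul_apply, hx, map_smul,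
      LinearMap.smul_apply, ← add_smul, ← hfm]
    refine heig _ _ ?_
    have h1 : R F ((R γ - 1) (b i)) = χ F • (R γ - 1) (R F (b i)) := LinearMap.congr_fun hFN (b i)
    rw [h1, hF, map_smul, smul_smul, Units.val_mul, hc]
  have hstx := hL.stable hss hU.2.1 hxL
  obtain ⟨h, hhd⟩ : ∃ h : Module.End K U, h = x.restrict hstx := ⟨_, rfl⟩
  have hhx : ∀ u : U, ((h u : U) : X) = x u := fun u => by rw [hhd]; rfl
  have hhm : h ∈ resL L U := ⟨_, hxL, hhx⟩
  have h3 : h * h * h = h := LinearMap.ext fun u => Subtype.ext (by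
    rw [Module.End.mul_apply, Module.End.mul_apply, hhx, hhx, hhx]
    exact LinearMap.congr_fun hx3 u)
  have hhNe : h * N = N * h + (2 : K) • N := LinearMap.ext fun u => Subtype.ext (by
    rw [LinearMap.add_apply, Submodule.coe_add, LinearMap.smul_apply, Submodule.coe_smul,
      Module.End.mul_apply, Module.End.mul_apply, hhx, hNx, hNx, hhx]
    exact LinearMap.congr_fun hxN u)
  -- `N` has degree two
  have c1 : N * Pp h = 0 := by
    have e1 : h * (N * Pp h) = (3 : K) • (N * Pp h) := by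
      rw [← mul_assoc, hhNe, add_mul, mul_assoc, h_Pp h3, smul_mul_assoc]
      module
    have e2 : h * h * h * (N * Pp h) = (27 : K) • (N * Pp h) := by
      rw [mul_assoc, mul_assoc, e1, mul_smul_comm, e1, mul_smul_comm, mul_smul_comm, e1]
      module
    rw [h3, e1] at e2
    have e3 : (24 : K) • (N * Pp h) = 0 := by
      have : (24 : K) • (N * Pp h) = (27 : K) • (N * Pp h) - (3 : K) • (N * Pp h) := by module
      rw [this, ← e2, sub_self]
    exact (smul_eq_zero.1 e3).resolve_left (by norm_num)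
  have c2 : N * P0 h = 0 := by
    have e1 : h * (N * P0 h) = (2 : K) • (N * P0 h) := by
      rw [← mul_assoc, hhNe, add_mul, mul_assoc, h_P0 h3, smul_mul_assoc, mul_zero, zero_add]
    have e2 : h * h * h * (N * P0 h) = (8 : K) • (N * P0 h) := by
      rw [mul_assoc, mul_assoc, e1, mul_smul_comm, e1, mul_smul_comm, mul_smul_comm, e1]
      module
    rw [h3, e1] at e2
    have e3 : (6 : K) • (N * P0 h) = 0 := by
      have : (6 : K) • (N * P0 h) = (8 : K) • (N * P0 h) - (2 : K) • (N * P0 h) := by module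
      rw [this, ← e2, sub_self]
    exact (smul_eq_zero.1 e3).resolve_left (by norm_num)
  have c3 : N * Pm h = N := by
    calc N * Pm h = N * (Pp h + P0 h + Pm h) - N * Pp h - N * P0 h := by noncomm_ring
    _ = N := by rw [P_sum, c1, c2, mul_one, sub_zero, sub_zero]
  have hNh : N * h = -N := by
    nth_rewrite 1 [← c3]
    have e1 : N * -Pm h = -(N * Pm h) := mul_neg N (Pm h)
    rw [mul_assoc, Pm_h h3, e1, c3]
  have hhN : h * N = N := by
    rw [hhNe, hNh]
    module
  -- the range of `N`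
  have hrange : ∀ v, h v = v → ∃ y, v = N y := by
    intro v hv
    have hv' : x v = v := by rw [← hhx, hv]
    have h5 : (v : X) ∈ LinearMap.range (R γ - 1) := by
      rw [← b.sum_repr (v : X)]
      refine Submodule.sum_mem _ fun i _ => ?_
      rcases ha i with h | h | ⟨-, h⟩
      · have h6 : b.repr v i = 0 := by
          have h7 : b.repr (x v) i = f (a i) * b.repr v i := by
            conv_lhs => rw [← b.sum_repr (v : X)]
            simp only [map_sum, map_smul, hx, Basis.repr_self, Finsupp.coe_finsetSum,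
              Finset.sum_apply, Finsupp.smul_single, smul_eq_mul, mul_one, Finsupp.coe_smul,
              Pi.smul_apply, Finsupp.single_apply, mul_ite, mul_zero, Finset.sum_ite_eq',
              Finset.mem_univ, if_true]
            ring
          rw [hv', h, hf1] at h7
          have h8 : (2 : K) * b.repr v i = 0 := by linear_combination h7
          exact (mul_eq_zero.1 h8).resolve_left two_ne_zero
        rw [h6, zero_smul]
        exact Submodule.zero_mem _
      · have h6 : b.repr v i = 0 := by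
          have h7 : b.repr (x v) i = f (a i) * b.repr v i := by
            conv_lhs => rw [← b.sum_repr (v : X)]
            simp only [map_sum, map_smul, hx, Basis.repr_self, Finsupp.coe_finsetSum,
              Finset.sum_apply, Finsupp.smul_single, smul_eq_mul, mul_one, Finsupp.coe_smul,
              Pi.smul_apply, Finsupp.single_apply, mul_ite, mul_zero, Finset.sum_ite_eq',
              Finset.mem_univ, if_true]
            ring
          rw [hv', hfh _ h, zero_mul] at h7
          exact h7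
        rw [h6, zero_smul]
        exact Submodule.zero_mem _
      · exact Submodule.smul_mem _ _ h
    obtain ⟨y, hy⟩ := h5
    obtain ⟨p, hp1, hp2, hp3⟩ := hss Δ hΔ U hUΔ
    have h6 : (R γ - 1) (p y) = p ((R γ - 1) y) :=
      hL.comm' hΔ hp3 hN y
    refine ⟨⟨p y, hp1 y⟩, Subtype.ext ?_⟩
    rw [hNx]
    change (v : X) = (R γ - 1) (p y)
    rw [h6, hy, hp2 v v.2]
  have hFm : ∀ v, h v = -v → FU v = (1 : K) • v := by
    intro v hv
    have hv' : x v = -v := by rw [← hhx, hv]; rfl
    apply Subtype.ext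
    rw [hFx, one_smul, ← b.sum_repr (v : X), map_sum]
    refine Finset.sum_congr rfl fun i _ => ?_
    rw [map_smul, hF]
    have h7 : b.repr (x v) i = f (a i) * b.repr v i := by
      conv_lhs => rw [← b.sum_repr (v : X)]
      simp only [map_sum, map_smul, hx, Basis.repr_self, Finsupp.coe_finsetSum,
        Finset.sum_apply, Finsupp.smul_single, smul_eq_mul, mul_one, Finsupp.coe_smul,
        Pi.smul_apply, Finsupp.single_apply, mul_ite, mul_zero, Finset.sum_ite_eq',
        Finset.mem_univ, if_true]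
      ring
    rw [hv', map_neg, Finsupp.neg_apply] at h7
    rcases ha i with h | h | ⟨h, -⟩
    · rw [h, Units.val_one, one_smul]
    · rw [hfh _ h, zero_mul, neg_eq_zero] at h7
      rw [h7, zero_smul, zero_smul]
    · rw [h, hfc] at h7
      have h8 : (2 : K) * b.repr v i = 0 := by linear_combination -h7
      rw [(mul_eq_zero.1 h8).resolve_left two_ne_zero, zero_smul, zero_smul]
  have hFh0 : R F * x = x * R F := by
    refine b.ext fun i => ?_
    rw [Module.End.mul_apply, Module.End.mul_apply, hx, hF, map_smul, map_smul, hF, hx, smul_smul,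
      smul_smul, mul_comm]
  have hFh : FU * h = h * FU := LinearMap.ext fun u => Subtype.ext (by
    rw [Module.End.mul_apply, Module.End.mul_apply, hFx, hhx, hhx, hFx]
    exact LinearMap.congr_fun hFh0 u)
  have hF'h : FU' * h = h * FU' := by
    calc FU' * h = FU' * h * (FU * FU') := by rw [hFF, mul_one]
    _ = FU' * (h * FU) * FU' := by noncomm_ring
    _ = (FU' * FU) * h * FU' := by rw [← hFh]; noncomm_ring
    _ = h * FU' := by rw [hFF', one_mul]
  have hFN' : FU * N = (c : K) • N := by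
    refine LinearMap.ext fun u => Subtype.ext ?_
    have e1 : (R γ - 1) (R F u) = (R γ - 1) u := by
      have e2 : N (FU u) = N u := by
        have e3 : FU * Pm h = Pm h := by
          refine LinearMap.ext fun v => ?_
          rw [Module.End.mul_apply, hFm _ (LinearMap.congr_fun (h_Pm h3) v), one_smul]
        have e4 : FU * Pm h = Pm h * FU := by
          unfold Pm
          rw [mul_smul_comm, smul_mul_assoc, mul_sub, sub_mul, ← mul_assoc, hFh, mul_assoc, hFh,
            ← mul_assoc]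
        have e5 : N * FU = N := by
          calc N * FU = N * Pm h * FU := by rw [c3]
          _ = N * (Pm h * FU) := by rw [mul_assoc]
          _ = N := by rw [← e4, e3, c3]
        exact LinearMap.congr_fun e5 u
      have e6 := congrArg Subtype.val e2
      rwa [hNx, hNx, hFx] at e6
    rw [Module.End.mul_apply, hFx, hNx, LinearMap.smul_apply, Submodule.coe_smul, hNx, hc]
    have e7 : R F ((R γ - 1) u) = χ F • (R γ - 1) (R F u) := LinearMap.congr_fun hFN u
    rw [e7, e1]
  obtain ⟨t₀, ht₀⟩ := hodd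
  rw [← mult_res hFx] at ht₀
  have hsimple : ∀ D ∈ resL L U, D * D = 1 → resL L U ≤ Pool.Agent.W548.Odd.gn (resL L U) D :=
    fun D hD hD2 => simple_of_odd hL.resL_br hsp hirr hndl hndr hNm hN2 hNne hFF hFF' hFG hFG' hFN'
      ht₀ hD hD2
  have hone : ∃ e ∈ resL L U, rk e = 1 := by
    rcases hsmall with hsmall | ⟨t, ht, ht0, htm⟩
    · refine exists_rank_one_small hL.resL_br hsp hirr halt' hndl hndr hsimple hNm hNne
        (Or.inr fun r hr => hsmall r fun δ hδ => ?_)
      by_cases hδ0 : δ = 0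
      · rw [hδ0]
        exact dvd_zero r
      obtain ⟨n', hn', hn2', hnr, -⟩ := defect_elt (resR R Δ U hUΔ) (sIrr_res hU Δ hΔ hUΔ) hL.resL_br
        (hL.resL_conj Δ hUΔ) (N := N) hNm hN2 (defect_res hL hnd hωR hss hU hNx hδ hδ0)
      rw [← hnr]
      exact hr n' hn' hn2'
    · rw [← mult_res hFx] at htm
      have hne : FU.maxGenEigenspace (t : K) ≠ ⊥ := by
        intro h0
        apply ht0
        rw [← Submodule.finrank_eq_zero (R := K), ← mult_res hFx, h0, finrank_bot]
      have hker : ∀ v ∈ FU.maxGenEigenspace (t : K), h v = 0 := by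
        intro v hv
        obtain ⟨k, hk⟩ := (Module.End.mem_maxGenEigenspace _ _ _).1 hv
        apply Subtype.ext
        rw [hhx]
        have hpow : ∀ (k : ℕ) (v : U), (((FU - (t : K) • (1 : Module.End K U)) ^ k) v : X) =
            ((R F - (t : K) • (1 : Module.End K X)) ^ k) v := by
          intro k
          induction k with
          | zero => exact fun v => rfl
          | succ k ih =>
            intro v
            rw [pow_succ, Module.End.mul_apply, ih, pow_succ, Module.End.mul_apply]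
            congr 1
            rw [LinearMap.sub_apply, Submodule.coe_sub, hFx, LinearMap.sub_apply]
            rfl
        have h5 := diag_eig hF hx (t := t) (v := (v : X)) (k := k) (by rw [← hpow, hk]; rfl)
        rw [h5, hfh t ht, zero_smul]
        rfl
      obtain ⟨z, hz, hz0, hzr⟩ := exists_small_elt hL.resL_br hsp hirr hndr hNm hNne hhm h3 hhN hNh
        hrange hFF' hFG hFh hF'h hFm hne hker
      refine exists_rank_one_small hL.resL_br hsp hirr halt' hndl hndr hsimple hz hz0 (Or.inl ?_)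
      refine lt_of_le_of_lt (Nat.mul_le_mul_left 4 hzr) ?_
      rw [← mul_assoc]
      exact htm
  obtain ⟨e, he, hr⟩ := hone
  have hall : ∀ u v, SS om u v ∈ resL L U :=
    all_of_rank_one (resR R Δ U hUΔ) (χ.comp Δ.subtype) (sIrr_res hU Δ hΔ hUΔ) hL.resL_br
        (hL.resL_conj Δ hUΔ) om halt' hndr hsim hsp he hr
  obtain ⟨v, hv⟩ : ∃ v : U, v ≠ 0 := by
    refine ⟨⟨y₀, hy₀⟩, fun h => hy₀0 ?_⟩
    have h1 : y₀ = 0 := congrArg Subtype.val h
    rw [h1, map_zero]
  obtain ⟨w', hw'⟩ : ∃ w', om v w' ≠ 0 := by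
    by_contra hcon
    push Not at hcon
    exact hv (hndl v hcon)
  refine one_of_rank_one hL hnd hωR hss hU hN hγ hN0 (hall v v)
    (Pool.Agent.W528.Tor.SS_sq_zero om halt' (halt' v)) ?_
  have h1 : LinearMap.range (SS om v v) = Submodule.span K {v} := by
    apply le_antisymm
    · rintro _ ⟨u, rfl⟩
      rw [SS_apply]
      exact Submodule.add_mem _ (Submodule.smul_mem _ _ (Submodule.mem_span_singleton_self v))
        (Submodule.smul_mem _ _ (Submodule.mem_span_singleton_self v))
    · rw [Submodule.span_singleton_le_iff_mem]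
      refine ⟨(2 * om v w')⁻¹ • w', ?_⟩
      rw [map_smul, SS_apply, ← add_smul, smul_smul]
      have h2 : (2 * om v w')⁻¹ * (om v w' + om v w') = 1 := by
        rw [← two_mul]
        exact inv_mul_cancel₀ (mul_ne_zero two_ne_zero hw')
      rw [h2, one_smul]
  rw [rk, h1]
  exact finrank_span_singleton hv

end

end Pool.Agent.Y144.QF
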