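import Mathlib
import Pool.Agent.Y144.QF.Final
import Pool.Agent.Y144.QF.JGlob2
import Pool.Agent.W528.ZC.FinDefs2

/-!
# Common `ℚ`-form of the monodromy groups from square-zero operators of rank one
-/

set_option linter.unusedSectionVars false
set_option linter.deprecated false

namespace Pool.Agent.Y144.QF

open Module MvPolynomial TensorProduct Pool.Agent.H204R3.GP Pool.Agent.H204R3.SP
open Pool.Agent.W522.U Pool.Agent.W528.ZC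
open Pool.Agent.W528.Tor (AltDual)
open Pool.Agent.Y126.Toric (IsDefect)

noncomputable section

section known

variable {k : Type} [Field k] [CharZero k] {ι : Type} [Fintype ι] [DecidableEq ι] {Γ : Type}
  [Group Γ] {Ω : Type} [Field Ω] [Algebra k Ω] [CharZero Ω] [Algebra.IsAlgebraic k Ω]
  {ρ : Γ →* Matrix ι ι k} {χ : Γ →* k} {ψ : Matrix ι ι k}

/-- The form over the algebraic closure. -/
abbrev om (Ω : Type) [Field Ω] [Algebra k Ω] (ψ : Matrix ι ι k) :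
    (ι → Ω) →ₗ[Ω] (ι → Ω) →ₗ[Ω] Ω := bf (ψ.map (algebraMap k Ω))

theorem om_nondeg (hψ : IsUnit ψ.det) (u : ι → Ω) (h : ∀ v, om Ω ψ u v = 0) : u = 0 := by
  have hψ' : IsUnit (ψ.map (algebraMap k Ω)).det := by
    have h1 := (algebraMap k Ω).map_det ψ
    rw [RingHom.mapMatrix_apply] at h1
    rw [← h1]
    exact hψ.map _
  exact bf_nondeg hψ' u h

theorem om_inv (hf : ∀ s, (ρ s).transpose * ψ * ρ s = χ s • ψ) (s : Γ) (u v : ι → Ω) :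
    om Ω ψ (repM ρ Ω s u) (repM ρ Ω s v) =
      ((algebraMap k Ω).toMonoidHom.comp χ) s * om Ω ψ u v := by
  have h1 := congrArg (fun M : Matrix ι ι k => M.map (algebraMap k Ω)) (hf s)
  simp only [Matrix.map_mul, Matrix.transpose_map] at h1
  change bf _ _ _ = _ * bf _ _ _
  rw [repM_apply, Matrix.toLin'_apply, Matrix.toLin'_apply, bf_mul, h1, ← bf_smul]
  congr 3
  ext i j
  simp only [Matrix.map_apply, Matrix.smul_apply, smul_eq_mul, map_mul]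
  rfl

variable [IsAlgClosed Ω] {E : Set (Matrix ι ι k)}

/-- From conditions on strongly irreducible subspaces to rank one operators. -/
theorem hasOne_of (hψ : IsUnit ψ.det) (h : Known Ω ρ χ ψ E)
    (H : ∀ (L : Submodule Ω (Module.End Ω (ι → Ω))), IsLie (om Ω ψ) (repM ρ Ω) L →
      (∀ u, (∀ v, om Ω ψ u v = 0) → u = 0) →
      (∀ s u v, om Ω ψ (repM ρ Ω s u) (repM ρ Ω s v) =
        ((algebraMap k Ω).toMonoidHom.comp χ) s * om Ω ψ u v) →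
      HasProj (repM ρ Ω) → HodgeGen (repM ρ Ω) L →
      (∀ {n : ℕ} (F : Γ) (b : Basis (Fin n) Ω (ι → Ω)) (a : Fin n → Ωˣ) (c : Ωˣ)
        (w : Additive Ωˣ →+ ℚ), (∀ i, repM ρ Ω F (b i) = (a i : Ω) • b i) →
        (c : Ω) = ((algebraMap k Ω).toMonoidHom.comp χ) F → w (Additive.ofMul c) = 1 →
        ∀ x : Module.End Ω (ι → Ω),
          (∀ i, x (b i) = (((w (Additive.ofMul (a i)) - 1 / 2 : ℚ)) : Ω) • b i) → x ∈ L) →
      ∀ U, SI (repM ρ Ω) U → AltDual (repM ρ Ω) ((algebraMap k Ω).toMonoidHom.comp χ) U ∧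
        ∃ e ∈ L, e * e = 0 ∧ finrank Ω (U.map e) = 1) :
    HasOne (om Ω ψ) (repM ρ Ω) ((algebraMap k Ω).toMonoidHom.comp χ) := by
  have hnd := om_nondeg (Ω := Ω) hψ
  have hω := om_inv (Ω := Ω) h.form
  exact H _ (isLie_HZ hnd hω) hnd hω (hasProj_repM ρ h.semi)
    (hodgeGen_HZ (hodge_iff ρ _ h.pink))
    (fun F b a c w hF hc hw x hx => slope_HZ hω F b a c w hF hc hw hx)

end known

variable {ι : Type} [Fintype ι] [DecidableEq ι]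

/-- The common form. -/
theorem common_form (ψ : Matrix ι ι ℚ) (hψ : IsUnit ψ.det) (E : Set (Matrix ι ι ℚ))
    {Γ : Type} [Group Γ] (ρ : ∀ (ℓ : ℕ) [Fact ℓ.Prime], Γ →* Matrix ι ι ℚ_[ℓ])
    (χ : ∀ (ℓ : ℕ) [Fact ℓ.Prime], Γ →* ℚ_[ℓ]) (ℓ₀ : ℕ)
    (hgood : ∀ (ℓ : ℕ) [Fact ℓ.Prime], ℓ₀ ≤ ℓ →
      Known (AlgebraicClosure ℚ_[ℓ]) (ρ ℓ) (χ ℓ) (mapQ ℚ_[ℓ] ψ) (mapQ ℚ_[ℓ] '' E) ∧
        HasOne (om (AlgebraicClosure ℚ_[ℓ]) (mapQ ℚ_[ℓ] ψ)) (repM (ρ ℓ) (AlgebraicClosure ℚ_[ℓ]))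
          ((algebraMap ℚ_[ℓ] (AlgebraicClosure ℚ_[ℓ])).toMonoidHom.comp (χ ℓ))) :
    ∃ S : Set (MvPolynomial (ι × ι) ℚ),
      (∀ (L : Type) [Field L] [Algebra ℚ L] (g : Matrix ι ι L), IsUnit g.det →
        (IsZeroOf S g ↔ InLefschetz ψ E g)) ∧
      ∀ (ℓ : ℕ) [Fact ℓ.Prime], ℓ₀ ≤ ℓ → ∀ Γ' : Subgroup Γ, Γ'.FiniteIndex →
        ∀ g : Matrix ι ι (AlgebraicClosure ℚ_[ℓ]), IsUnit g.det →
          (InIdentityComponent ((ρ ℓ).comp Γ'.subtype) g ↔ IsZeroOf S g) := by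
  refine ⟨lef ψ E, fun L _ _ g hg => lef_iff hψ L g hg, fun ℓ _ hℓ Γ' hΓ' g hg => ?_⟩
  have hψ' : IsUnit (mapQ ℚ_[ℓ] ψ).det := by
    have h1 := (algebraMap ℚ ℚ_[ℓ]).map_det ψ
    rw [RingHom.mapMatrix_apply] at h1
    unfold mapQ
    rw [← h1]
    exact hψ.map _
  have hmap : ∀ M : Matrix ι ι ℚ, (mapQ ℚ_[ℓ] M).map
      (algebraMap ℚ_[ℓ] (AlgebraicClosure ℚ_[ℓ])) =
      M.map (algebraMap ℚ (AlgebraicClosure ℚ_[ℓ])) := by
    intro M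
    ext i j
    simp only [mapQ, Matrix.map_apply]
    exact (IsScalarTower.algebraMap_apply ℚ ℚ_[ℓ] (AlgebraicClosure ℚ_[ℓ]) _).symm
  unfold IsZeroOf
  rw [inIC_sub (ρ ℓ) Γ' hΓ' g, Pool.Agent.Y144.QF.main_M hψ' (hgood ℓ hℓ).1 (hgood ℓ hℓ).2 g hg,
    lef_iff hψ (AlgebraicClosure ℚ_[ℓ]) g hg, hmap]
  refine and_congr Iff.rfl ⟨fun h e he => ?_, ?_⟩
  · have h1 := h _ ⟨e, he, rfl⟩
    rwa [hmap] at h1
  · rintro h _ ⟨e, he, rfl⟩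
    rw [hmap]
    exact h e he

theorem unit_mapQ {ψ : Matrix ι ι ℚ} (hψ : IsUnit ψ.det) (ℓ : ℕ) [Fact ℓ.Prime] :
    IsUnit (mapQ ℚ_[ℓ] ψ).det := by
  have h1 := (algebraMap ℚ ℚ_[ℓ]).map_det ψ
  rw [RingHom.mapMatrix_apply] at h1
  unfold mapQ
  rw [← h1]
  exact hψ.map _

end

end Pool.Agent.Y144.QF
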